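import Mathlib

set_option autoImplicit false

open Polynomial

namespace Pool.Agent.H.MP_405479_al

variable {A : Type*} [CommRing A]

/-- The operator `h ↦ c h' - a h`. -/
noncomputable def Dop (c : A) (a h : A[X]) : A[X] := C c * derivative h - a * h

lemma Dop_add (c : A) (a h k : A[X]) : Dop c a (h + k) = Dop c a h + Dop c a k := by
  simp only [Dop, derivative_add]; ring

lemma Dop_sub (c : A) (a h k : A[X]) : Dop c a (h - k) = Dop c a h - Dop c a k := by
  simp only [Dop, derivative_sub]; ring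

lemma Dop_neg (c : A) (a h : A[X]) : Dop c a (-h) = -Dop c a h := by
  simp only [Dop, derivative_neg]; ring

@[simp] lemma Dop_zero (c : A) (a : A[X]) : Dop c a 0 = 0 := by
  simp [Dop]

lemma Dop_C_mul (c : A) (a h : A[X]) (z : A) : Dop c a (C z * h) = C z * Dop c a h := by
  simp only [Dop, derivative_C_mul]; ring

lemma Dop_map {B : Type*} [CommRing B] (φ : A →+* B) (c : A) (a h : A[X]) :
    (Dop c a h).map φ = Dop (φ c) (a.map φ) (h.map φ) := by
  simp [Dop, Polynomial.map_sub, Polynomial.map_mul, derivative_map]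

/-- `Dop` preserves polynomials with coefficients in an ideal. -/
lemma Dop_mem (c : A) (a h : A[X]) (I : Ideal A) (hh : h ∈ Ideal.map C I) :
    Dop c a h ∈ Ideal.map C I := by
  rw [Dop]
  refine Ideal.sub_mem _ (Ideal.mul_mem_left _ _ ?_) (Ideal.mul_mem_left _ _ hh)
  rw [Ideal.mem_map_C_iff] at hh ⊢
  intro n
  rw [coeff_derivative]
  exact Ideal.mul_mem_right _ _ (hh _)

/-- Coefficient ideal of `a`. -/
noncomputable def cI (a : A[X]) : Ideal A := Ideal.span (Set.range a.coeff)

lemma coeff_mem_cI (a : A[X]) (j : ℕ) : a.coeff j ∈ cI a := Ideal.subset_span ⟨j, rfl⟩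

lemma mem_map_cI (a : A[X]) : a ∈ Ideal.map C (cI a) := by
  rw [Ideal.mem_map_C_iff]
  exact coeff_mem_cI a

lemma Dop_mem_pow (c : A) (a h : A[X]) (n : ℕ) (hh : h ∈ Ideal.map C (cI a ^ n)) :
    Dop c a h ∈ Ideal.map C (cI a ^ n) := Dop_mem c a h _ hh

end Pool.Agent.H.MP_405479_al
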