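import Mathlib

set_option autoImplicit false

open Polynomial

namespace Pool.Agent.H.MP_405479_al

section CharP

variable {k : Type*} [Field k] (p : ℕ) [Fact p.Prime] [CharP k p]

omit [Fact p.Prime] in
lemma cast_ne_zero_of_lt {n : ℕ} (h0 : 0 < n) (h : n < p) : ((n : ℕ) : k) ≠ 0 := by
  rw [Ne, CharP.cast_eq_zero_iff k p]
  intro hd
  exact absurd (Nat.le_of_dvd h0 hd) (by omega)

/-- An antiderivative (meaningful in small degrees). -/
noncomputable def adv (a : k[X]) : k[X] := ∑ n ∈ Finset.range (a.natDegree + 1),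
  C (a.coeff n * ((n + 1 : ℕ) : k)⁻¹) * X ^ n

lemma derivative_X_mul_adv (a : k[X]) (ha : a.natDegree + 1 < p) :
    derivative (X * adv a) = a := by
  rw [adv, Finset.mul_sum, derivative_sum]
  conv_rhs => rw [a.as_sum_range_C_mul_X_pow]
  refine Finset.sum_congr rfl fun n hn => ?_
  rw [Finset.mem_range] at hn
  have h1 : ((n + 1 : ℕ) : k) ≠ 0 := cast_ne_zero_of_lt p (by omega) (by omega)
  have e : X * (C (a.coeff n * ((n + 1 : ℕ) : k)⁻¹) * X ^ n) =
      C (a.coeff n * ((n + 1 : ℕ) : k)⁻¹) * X ^ (n + 1) := by ring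
  rw [e, derivative_C_mul_X_pow, Nat.add_sub_cancel, mul_assoc, inv_mul_cancel₀ h1, mul_one]

lemma adv_coeff_zero (a : k[X]) : (adv a).coeff 0 = a.coeff 0 := by
  rw [adv, finsetSum_coeff, Finset.sum_eq_single 0]
  · simp
  · intro n _ hn
    rw [coeff_C_mul, coeff_X_pow, if_neg (Ne.symm hn), mul_zero]
  · intro h
    exact absurd (Finset.mem_range.mpr (Nat.succ_pos _)) h

/-- Truncated exponential of minus the antiderivative. -/
noncomputable def tE (a : k[X]) : k[X] :=
  ∑ i ∈ Finset.range p, C (((i.factorial : ℕ) : k)⁻¹) * (-(X * adv a)) ^ i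

lemma tE_coeff_zero (a : k[X]) : (tE p a).coeff 0 = 1 := by
  have hp : 0 < p := (Fact.out : p.Prime).pos
  rw [tE, finsetSum_coeff, Finset.sum_eq_single 0]
  · simp
  · intro n _ hn
    rw [coeff_C_mul]
    have : ((-(X * adv a)) ^ n).coeff 0 = 0 := by
      rw [coeff_zero_eq_eval_zero, eval_pow, eval_neg, eval_mul, eval_X, zero_mul, neg_zero,
        zero_pow hn]
    rw [this, mul_zero]
  · intro h
    exact absurd (Finset.mem_range.mpr hp) h

lemma derivative_tE (a : k[X]) (ha : a.natDegree + 1 < p) :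
    derivative (tE p a) = -a * (tE p a) +
      C ((((p - 1).factorial : ℕ) : k)⁻¹) * a * (-(X * adv a)) ^ (p - 1) := by
  obtain ⟨q, hq⟩ : ∃ q, p = q + 1 := ⟨p - 1, by have := (Fact.out : p.Prime).pos; omega⟩
  have hQ : derivative (-(X * adv a)) = -a := by
    rw [derivative_neg, derivative_X_mul_adv p a ha]
  have e1 : tE p a = (∑ i ∈ Finset.range q, C (((i.factorial : ℕ) : k)⁻¹) *
      (-(X * adv a)) ^ i) + C (((q.factorial : ℕ) : k)⁻¹) * (-(X * adv a)) ^ q := by
    rw [tE, hq, Finset.sum_range_succ]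
  have e2 : derivative (tE p a) = -a * ∑ i ∈ Finset.range q, C (((i.factorial : ℕ) : k)⁻¹) *
      (-(X * adv a)) ^ i := by
    rw [tE, hq, derivative_sum, Finset.sum_range_succ', Finset.mul_sum]
    have h0 : derivative (C ((((0 : ℕ).factorial : ℕ) : k)⁻¹) * (-(X * adv a)) ^ 0) = 0 := by
      rw [pow_zero, mul_one, derivative_C]
    rw [h0, add_zero]
    refine Finset.sum_congr rfl fun i hi => ?_
    rw [Finset.mem_range] at hi
    have h1 : ((i + 1 : ℕ) : k) ≠ 0 := cast_ne_zero_of_lt p (by omega) (by omega)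
    rw [derivative_C_mul, derivative_pow, hQ, Nat.add_sub_cancel, Nat.factorial_succ]
    have h2 : C ((((i + 1) * i.factorial : ℕ) : k)⁻¹) * ((C ((i + 1 : ℕ) : k)) : k[X]) =
        C (((i.factorial : ℕ) : k)⁻¹) := by
      rw [← C_mul]
      congr 1
      rw [Nat.cast_mul, mul_inv, mul_comm, ← mul_assoc, mul_inv_cancel₀ h1, one_mul]
    calc C ((((i + 1) * i.factorial : ℕ) : k)⁻¹) *
          (C ((i + 1 : ℕ) : k) * (-(X * adv a)) ^ i * -a)
        = (C ((((i + 1) * i.factorial : ℕ) : k)⁻¹) * ((C ((i + 1 : ℕ) : k)) : k[X])) *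
          ((-(X * adv a)) ^ i * -a) := by ring
      _ = _ := by rw [h2]; ring
  have hq' : p - 1 = q := by omega
  rw [e2, hq', e1]
  ring

/-- The key coefficient identity. -/
lemma key_coeff (a w : k[X]) (ha : a.natDegree + 1 < p) :
    (tE p a * (derivative w - a * w)).coeff (p - 1) =
      -((((p - 1).factorial : ℕ) : k)⁻¹ * (a.coeff 0 * (-a.coeff 0) ^ (p - 1) * w.coeff 0)) := by
  have hp : 0 < p := (Fact.out : p.Prime).pos
  have h1 : derivative (tE p a * w) = tE p a * (derivative w - a * w) +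
      C ((((p - 1).factorial : ℕ) : k)⁻¹) * ((a * (-adv a) ^ (p - 1) * w) * X ^ (p - 1)) := by
    rw [derivative_mul, derivative_tE p a ha]
    have : (-(X * adv a)) ^ (p - 1) = (-adv a) ^ (p - 1) * X ^ (p - 1) := by
      rw [← mul_pow]; congr 1; ring
    rw [this]
    ring
  have h2 : (derivative (tE p a * w)).coeff (p - 1) = 0 := by
    rw [coeff_derivative]
    have : (((p - 1 : ℕ) : k) + 1) = 0 := by
      have h3 : ((p - 1 + 1 : ℕ) : k) = 0 := by
        rw [Nat.sub_add_cancel hp, CharP.cast_eq_zero]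
      rwa [Nat.cast_add, Nat.cast_one] at h3
    rw [this, mul_zero]
  rw [h1, coeff_add, coeff_C_mul] at h2
  have h4 : ((a * (-adv a) ^ (p - 1) * w) * X ^ (p - 1)).coeff (p - 1) =
      a.coeff 0 * (-a.coeff 0) ^ (p - 1) * w.coeff 0 := by
    have := coeff_mul_X_pow (a * (-adv a) ^ (p - 1) * w) (p - 1) 0
    rw [zero_add] at this
    rw [this, coeff_zero_eq_eval_zero, eval_mul, eval_mul, eval_pow, eval_neg,
      ← coeff_zero_eq_eval_zero, ← coeff_zero_eq_eval_zero, ← coeff_zero_eq_eval_zero,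
      adv_coeff_zero]
  rw [h4] at h2
  linear_combination h2

/-- Case 1: at a root of `a`. -/
lemma case_one (a h v : k[X]) (ha : a.natDegree + 1 < p) (ha0 : a.coeff 0 = 0)
    (hh : derivative h - a * h = X ^ (p - 1) * v) : v.coeff 0 = 0 := by
  have h1 := key_coeff p a h ha
  rw [ha0, hh] at h1
  have h2 : (tE p a * (X ^ (p - 1) * v)).coeff (p - 1) = v.coeff 0 := by
    have e : tE p a * (X ^ (p - 1) * v) = (tE p a * v) * X ^ (p - 1) := by ring
    have := coeff_mul_X_pow (tE p a * v) (p - 1) 0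
    rw [zero_add] at this
    rw [e, this, coeff_zero_eq_eval_zero, eval_mul, ← coeff_zero_eq_eval_zero,
      ← coeff_zero_eq_eval_zero, tE_coeff_zero, one_mul]
  rw [h2] at h1
  rw [h1]
  ring

/-- Case 2: away from the roots of `a`. -/
lemma case_two (a h v : k[X]) (ha : a.natDegree + 1 < p) (ha0 : a.coeff 0 ≠ 0)
    (hh : derivative h - a * h = X ^ p * v) : X ^ p ∣ h := by
  have hp : 0 < p := (Fact.out : p.Prime).pos
  have h1 := key_coeff p a h ha
  have h2 : (tE p a * (X ^ p * v)).coeff (p - 1) = 0 := by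
    have e : tE p a * (X ^ p * v) = X ^ p * (tE p a * v) := by ring
    rw [e, coeff_X_pow_mul']
    rw [if_neg (by omega)]
  rw [hh, h2] at h1
  have hfac : (((p - 1).factorial : ℕ) : k) ≠ 0 := by
    rw [Ne, CharP.cast_eq_zero_iff k p, (Fact.out : p.Prime).dvd_factorial]
    omega
  have h3 : h.coeff 0 = 0 := by
    by_contra h4
    have h5 : (((p - 1).factorial : ℕ) : k)⁻¹ * (a.coeff 0 * (-a.coeff 0) ^ (p - 1) * h.coeff 0)
        ≠ 0 := by
      refine mul_ne_zero (inv_ne_zero hfac) (mul_ne_zero (mul_ne_zero ha0 ?_) h4)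
      exact pow_ne_zero _ (neg_ne_zero.mpr ha0)
    exact h5 (neg_eq_zero.mp h1.symm)
  rw [X_pow_dvd_iff]
  intro d
  induction d using Nat.strong_induction_on with
  | _ d ih =>
    intro hd
    rcases Nat.eq_zero_or_pos d with h0 | h0
    · rw [h0, h3]
    · obtain ⟨i, rfl⟩ : ∃ i, d = i + 1 := ⟨d - 1, by omega⟩
      have h6 : (derivative h - a * h).coeff i = (X ^ p * v).coeff i := by rw [hh]
      rw [coeff_X_pow_mul', if_neg (by omega), coeff_sub, coeff_derivative, coeff_mul] at h6
      have h7 : ∑ x ∈ Finset.HasAntidiagonal.antidiagonal i, a.coeff x.1 * h.coeff x.2 = 0 := by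
        refine Finset.sum_eq_zero fun x hx => ?_
        rw [Finset.HasAntidiagonal.mem_antidiagonal] at hx
        rw [ih x.2 (by omega) (by omega), mul_zero]
      rw [h7, sub_zero] at h6
      have h8 : ((i : k) + 1) ≠ 0 := by
        have := cast_ne_zero_of_lt (k := k) p (n := i + 1) (by omega) hd
        rwa [Nat.cast_add, Nat.cast_one] at this
      exact (mul_eq_zero.mp h6).resolve_right h8

/-- Translation. -/
lemma comp_eq (τ : k) (a h g : k[X]) (hh : derivative h - a * h = g) :
    derivative (h.comp (X + C τ)) - (a.comp (X + C τ)) * (h.comp (X + C τ)) =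
      g.comp (X + C τ) := by
  rw [derivative_comp, ← hh]
  simp [sub_comp, mul_comp]

lemma natDegree_comp_X_add_C (τ : k) (a : k[X]) : (a.comp (X + C τ)).natDegree = a.natDegree := by
  rw [natDegree_comp, natDegree_X_add_C, mul_one]

lemma natDegree_contra' (a h : k[X]) (ha : 1 ≤ a.natDegree) (z : k) (hh0 : h ≠ 0)
    (hh : derivative h - a * h = C z) : False := by
  have ha0 : a ≠ 0 := by
    rintro rfl
    simp at ha
  have h1 : (a * h).natDegree = a.natDegree + h.natDegree := natDegree_mul ha0 hh0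
  have h2 : (a * h) = derivative h - C z := by rw [← hh]; ring
  have h3 : (derivative h - C z).natDegree ≤ h.natDegree := by
    refine (natDegree_sub_le _ _).trans ?_
    rw [natDegree_C]
    have := natDegree_derivative_le h
    omega
  rw [← h2, h1] at h3
  omega

lemma natDegree_contra (a h : k[X]) (ha : 1 ≤ a.natDegree) (z : k) (hz : z ≠ 0)
    (hh : derivative h - a * h = C z) : False := by
  have hh0 : h ≠ 0 := by
    rintro rfl
    rw [derivative_zero, mul_zero, sub_zero] at hh
    exact hz (C_eq_zero.mp hh.symm)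
  exact natDegree_contra' a h ha z hh0 hh

variable [IsAlgClosed k]

lemma no_common_root (a : k[X]) (ha : a.natDegree + 1 < p) (ha1 : 1 ≤ a.natDegree) (n : ℕ) :
    ∀ f : k[X], f.natDegree = n → f ≠ 0 → (∀ τ, f.eval τ = 0 → a.eval τ ≠ 0) →
      ¬ ∃ h, derivative h - a * h = f ^ p := by
  induction n with
  | zero =>
    intro f hfn hf _ ⟨h, hh⟩
    obtain ⟨z, rfl⟩ := natDegree_eq_zero.mp hfn
    rw [← C_pow] at hh
    refine natDegree_contra a h ha1 (z ^ p) (pow_ne_zero _ ?_) hh
    rintro rfl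
    simp at hf
  | succ n ih =>
    intro f hfn hf hroot ⟨h, hh⟩
    obtain ⟨τ, hτ⟩ := IsAlgClosed.exists_root f (by
      rw [degree_eq_natDegree hf, hfn]
      exact_mod_cast Nat.succ_ne_zero n)
    have hτ' : f.eval τ = 0 := hτ
    obtain ⟨f1, hf1⟩ := dvd_iff_isRoot.mpr hτ
    have haτ := hroot τ hτ'
    have h1 := comp_eq τ a h _ hh
    have h2 : ((f ^ p).comp (X + C τ)) = X ^ p * ((f1.comp (X + C τ)) ^ p) := by
      rw [hf1, mul_pow, mul_comp, pow_comp, pow_comp, sub_comp, X_comp, C_comp]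
      congr 2
      ring
    rw [h2] at h1
    have h3 : X ^ p ∣ h.comp (X + C τ) := by
      refine case_two p (a.comp (X + C τ)) _ _ ?_ ?_ h1
      · rw [natDegree_comp_X_add_C]; exact ha
      · rw [coeff_zero_eq_eval_zero, eval_comp]
        simpa using haτ
    obtain ⟨g, hg⟩ := h3
    have h4 : h = (X - C τ) ^ p * g.comp (X - C τ) := by
      have := congrArg (fun q => q.comp (X - C τ)) hg
      simp only [mul_comp, pow_comp, X_comp, comp_assoc, add_comp, C_comp] at this
      rw [sub_add_cancel, comp_X] at this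
      exact this
    set h1' := g.comp (X - C τ) with hh1'
    have h5 : derivative h - a * h = (X - C τ) ^ p * (derivative h1' - a * h1') := by
      rw [h4, derivative_mul, derivative_pow]
      rw [CharP.cast_eq_zero, C_0]
      ring
    rw [hh, hf1, mul_pow] at h5
    have h6 : derivative h1' - a * h1' = f1 ^ p :=
      (mul_left_cancel₀ (pow_ne_zero _ (X_sub_C_ne_zero τ)) h5).symm
    have hf1ne : f1 ≠ 0 := by
      rintro rfl
      rw [mul_zero] at hf1
      exact hf hf1
    refine ih f1 ?_ hf1ne ?_ ⟨h1', h6⟩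
    · rw [hf1, natDegree_mul (X_sub_C_ne_zero τ) hf1ne, natDegree_X_sub_C] at hfn
      omega
    · intro σ hσ
      apply hroot σ
      rw [hf1, eval_mul, hσ, mul_zero]

/-- The characteristic `p` statement. -/
theorem charp_main (a f : k[X]) (ha : a.natDegree + 1 < p) (ha1 : 1 ≤ a.natDegree) (hf : f ≠ 0)
    (hdiv : ∀ n, 1 ≤ n → n ≤ f.natDegree → n ∣ p - 1)
    (hpow : ∀ m, 1 ≤ m → m ≤ p → ∃ h, derivative h - a * h = f ^ m) : False := by
  have hp : 1 < p := (Fact.out : p.Prime).one_lt
  by_cases hc : ∀ τ, f.eval τ = 0 → a.eval τ ≠ 0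
  · exact no_common_root p a ha ha1 f.natDegree f rfl hf hc (hpow p (by omega) le_rfl)
  · push Not at hc
    obtain ⟨τ, hfτ, haτ⟩ := hc
    obtain ⟨q, hq, hnd⟩ := exists_eq_pow_rootMultiplicity_mul_and_not_dvd f hf τ
    set n := rootMultiplicity τ f with hn
    have hn1 : 1 ≤ n := (rootMultiplicity_pos hf).mpr hfτ
    have hq0 : q ≠ 0 := by
      rintro rfl
      exact hnd (dvd_zero _)
    have hn2 : n ≤ f.natDegree := by
      rw [hq, natDegree_mul (pow_ne_zero _ (X_sub_C_ne_zero τ)) hq0, natDegree_pow,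
        natDegree_X_sub_C]
      omega
    obtain ⟨m, hm⟩ := hdiv n hn1 hn2
    have hm1 : 1 ≤ m := by
      rcases Nat.eq_zero_or_pos m with h0 | h0
      · rw [h0, mul_zero] at hm
        omega
      · exact h0
    have hm2 : m ≤ p := by
      have : m ≤ n * m := Nat.le_mul_of_pos_left m hn1
      omega
    obtain ⟨h, hh⟩ := hpow m hm1 hm2
    have h1 := comp_eq τ a h _ hh
    have h2 : ((f ^ m).comp (X + C τ)) = X ^ (p - 1) * ((q.comp (X + C τ)) ^ m) := by
      rw [hq, mul_pow, mul_comp, pow_comp, pow_comp, pow_comp, sub_comp, X_comp, C_comp, ← pow_mul,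
        ← hm]
      congr 2
      ring
    rw [h2] at h1
    have h3 := case_one p (a.comp (X + C τ)) _ _
      (by rw [natDegree_comp_X_add_C]; exact ha)
      (by rw [coeff_zero_eq_eval_zero, eval_comp]; simpa using haτ) h1
    rw [coeff_zero_eq_eval_zero, eval_pow, eval_comp] at h3
    have h4 : q.eval τ = 0 := by
      simpa using pow_eq_zero_iff (by omega) |>.mp h3
    exact hnd (dvd_iff_isRoot.mpr h4)

end CharP

end Pool.Agent.H.MP_405479_al
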