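import Pool.Agent.H.MP_405479_al.Kernel

set_option autoImplicit false

open Polynomial

namespace Pool.Agent.H.MP_405479_al

section

variable {A : Type*} [CommRing A]

/-- Artin-Rees consequence. -/
lemma artin_rees [IsNoetherianRing A] (I J : Ideal A) (K : ℕ) :
    ∃ L, K ≤ L ∧ ∀ z ∈ I ^ L, (∃ n, ∀ y ∈ I ^ n, y * z ∈ J) → z ∈ I ^ K * J := by
  let G : ℕ →o Ideal A :=
    { toFun := fun n =>
        { carrier := {z | ∀ y ∈ I ^ n, y * z ∈ J}
          add_mem' := by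
            intro x y hx hy w hw
            rw [mul_add]
            exact J.add_mem (hx w hw) (hy w hw)
          zero_mem' := by
            intro w _
            rw [mul_zero]
            exact J.zero_mem
          smul_mem' := by
            intro r x hx w hw
            rw [smul_eq_mul, mul_left_comm]
            exact J.mul_mem_left r (hx w hw) }
      monotone' := by
        intro n m hnm z hz y hy
        exact hz y (Ideal.pow_le_pow_right hnm hy) }
  have hG : ∀ n z, z ∈ G n ↔ ∀ y ∈ I ^ n, y * z ∈ J := fun n z => Iff.rfl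
  obtain ⟨n0, hn0⟩ := monotone_stabilizes_iff_noetherian.mpr (inferInstance : IsNoetherian A A) G
  obtain ⟨k, hk⟩ := Ideal.exists_pow_inf_eq_pow_smul I (M := A) (G n0)
  refine ⟨k + n0 + K, by omega, ?_⟩
  rintro z hz ⟨n, hn⟩
  have hzG : z ∈ G n0 := by
    have h1 : z ∈ G (max n n0) := G.monotone (le_max_left _ _) ((hG n z).mpr hn)
    rw [← hn0 (max n n0) (le_max_right _ _)] at h1
    exact h1
  have h2 : z ∈ I ^ (k + n0 + K) • (⊤ : Submodule A A) ⊓ G n0 := by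
    refine ⟨?_, hzG⟩
    rw [smul_eq_mul, Ideal.mul_top]
    exact hz
  rw [hk _ (by omega)] at h2
  have h3 : k + n0 + K - k = K + n0 := by omega
  rw [h3, pow_add, smul_eq_mul] at h2
  have h4 : I ^ n0 * (I ^ k • (⊤ : Submodule A A) ⊓ G n0) ≤ J := by
    rw [Ideal.mul_le]
    intro y hy w hw
    exact hw.2 y hy
  rw [mul_assoc] at h2
  exact Ideal.mul_mono_right h4 h2

/-- The strong form of the conclusion, modulo an ideal `I`. -/
def Strong (c : A) (a f : A[X]) (I : Ideal A) : Prop :=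
  ∀ g : A[X], ∀ K : ℕ, ∃ m₀, ∀ m, m₀ ≤ m →
    ∃ u ∈ Ideal.map C (cI a ^ K), Dop c a u - g * f ^ m ∈ Ideal.map C I

lemma map_C_mono {I J : Ideal A} (h : I ≤ J) : Ideal.map (C : A →+* A[X]) I ≤ Ideal.map C J :=
  Ideal.map_mono h

lemma map_cI {B : Type*} [CommRing B] (φ : A →+* B) (a : A[X]) :
    Ideal.map φ (cI a) = cI (a.map φ) := by
  rw [cI, cI, Ideal.map_span]
  congr 1
  ext x
  constructor
  · rintro ⟨y, ⟨i, rfl⟩, rfl⟩
    exact ⟨i, by rw [coeff_map]⟩
  · rintro ⟨i, rfl⟩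
    exact ⟨a.coeff i, ⟨i, rfl⟩, by rw [coeff_map]⟩

/-- Kernel lemma modulo an ideal. -/
lemma ker_lemma_mod (c : A) (a w : A[X]) (J : Ideal A) (hD : Dop c a w ∈ Ideal.map C J) :
    ∃ n, ∀ y ∈ cI a ^ n, ∀ i, y * w.coeff i ∈ J := by
  have hker : Dop (Ideal.Quotient.mk J c) (a.map (Ideal.Quotient.mk J))
      (w.map (Ideal.Quotient.mk J)) = 0 := by
    rw [← Dop_map]
    ext i
    rw [coeff_map, coeff_zero]
    rw [Ideal.mem_map_C_iff] at hD
    exact Ideal.Quotient.eq_zero_iff_mem.mpr (hD i)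
  obtain ⟨n, hn⟩ := ker_lemma _ _ _ hker
  refine ⟨n, fun y hy i => ?_⟩
  have hy' : Ideal.Quotient.mk J y ∈ cI (a.map (Ideal.Quotient.mk J)) ^ n := by
    rw [← map_cI, ← Ideal.map_pow]
    exact Ideal.mem_map_of_mem _ hy
  have h5 : (C (Ideal.Quotient.mk J y) * w.map (Ideal.Quotient.mk J)).coeff i = 0 := by
    rw [hn _ hy', coeff_zero]
  rw [coeff_C_mul, coeff_map, ← map_mul] at h5
  exact Ideal.Quotient.eq_zero_iff_mem.mp h5

lemma glue_aux (c : A) (a : A[X]) (I J : Ideal A) (K L : ℕ)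
    (hL : ∀ z ∈ cI a ^ L, (∃ n, ∀ y ∈ cI a ^ n, y * z ∈ I ⊔ J) → z ∈ cI a ^ K * (I ⊔ J))
    (w : A[X]) (hw : w ∈ Ideal.map C (cI a ^ L)) (hD : Dop c a w ∈ Ideal.map C (I ⊔ J)) :
    ∃ v1 v2 : A[X], v1 ∈ Ideal.map C (cI a ^ K) ∧ v1 ∈ Ideal.map C I ∧ v2 ∈ Ideal.map C J ∧
      w = v1 + v2 := by
  obtain ⟨n, hn⟩ := ker_lemma_mod c a w _ hD
  have hmem : w ∈ Ideal.map C (cI a ^ K * (I ⊔ J)) := by
    rw [Ideal.mem_map_C_iff] at hw ⊢
    intro i
    exact hL _ (hw i) ⟨n, fun y hy => hn y hy i⟩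
  rw [Ideal.mul_sup, Ideal.map_sup, Submodule.mem_sup] at hmem
  obtain ⟨v1, hv1, v2, hv2, hv⟩ := hmem
  exact ⟨v1, v2, map_C_mono Ideal.mul_le_left hv1, map_C_mono Ideal.mul_le_right hv1,
    map_C_mono Ideal.mul_le_right hv2, hv.symm⟩

theorem strong_inf [IsNoetherianRing A] {c : A} {a f : A[X]} {I J : Ideal A}
    (hI : Strong c a f I) (hJ : Strong c a f J) : Strong c a f (I ⊓ J) := by
  intro g K
  obtain ⟨L, hKL, hL⟩ := artin_rees (cI a) (I ⊔ J) K
  obtain ⟨m1, h1⟩ := hI g L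
  obtain ⟨m2, h2⟩ := hJ g L
  refine ⟨max m1 m2, fun m hm => ?_⟩
  obtain ⟨u1, hu1, hD1⟩ := h1 m ((le_max_left _ _).trans hm)
  obtain ⟨u2, hu2, hD2⟩ := h2 m ((le_max_right _ _).trans hm)
  have hD : Dop c a (u1 - u2) ∈ Ideal.map C (I ⊔ J) := by
    have e : Dop c a (u1 - u2) = (Dop c a u1 - g * f ^ m) - (Dop c a u2 - g * f ^ m) := by
      rw [Dop_sub]; ring
    rw [e]
    exact Ideal.sub_mem _ (map_C_mono le_sup_left hD1) (map_C_mono le_sup_right hD2)
  obtain ⟨v1, v2, hv1K, hv1I, hv2J, hv⟩ :=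
    glue_aux c a I J K L hL (u1 - u2) (Ideal.sub_mem _ hu1 hu2) hD
  refine ⟨u1 - v1, ?_, ?_⟩
  · exact Ideal.sub_mem _ (map_C_mono (Ideal.pow_le_pow_right hKL) hu1) hv1K
  · have hA : Dop c a (u1 - v1) - g * f ^ m ∈ Ideal.map C I := by
      have e : Dop c a (u1 - v1) - g * f ^ m = (Dop c a u1 - g * f ^ m) - Dop c a v1 := by
        rw [Dop_sub]; ring
      rw [e]
      exact Ideal.sub_mem _ hD1 (Dop_mem _ _ _ _ hv1I)
    have hB : Dop c a (u1 - v1) - g * f ^ m ∈ Ideal.map C J := by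
      have e0 : u1 - v1 = u2 + v2 := by
        linear_combination hv
      have e : Dop c a (u1 - v1) - g * f ^ m = (Dop c a u2 - g * f ^ m) + Dop c a v2 := by
        rw [e0, Dop_add]; ring
      rw [e]
      exact Ideal.add_mem _ hD2 (Dop_mem _ _ _ _ hv2J)
    rw [Ideal.mem_map_C_iff] at hA hB ⊢
    exact fun i => ⟨hA i, hB i⟩

/-- `Strong` when a power of `f` has coefficients in `I`. -/
theorem strong_of_pow_mem {c : A} {a f : A[X]} {I : Ideal A} (n : ℕ)
    (hf : f ^ n ∈ Ideal.map C I) : Strong c a f I := by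
  intro g K
  refine ⟨n, fun m hm => ⟨0, Ideal.zero_mem _, ?_⟩⟩
  rw [Dop_zero, zero_sub]
  refine (Ideal.neg_mem_iff _).mpr (Ideal.mul_mem_left _ _ ?_)
  obtain ⟨k, rfl⟩ := Nat.exists_eq_add_of_le hm
  rw [pow_add]
  exact Ideal.mul_mem_right _ _ hf

lemma Dop_solve_cpow (c : A) (a : A[X]) (I : Ideal A) (n : ℕ) (hc : c ^ n ∈ I) (K : ℕ) (j : ℕ) :
    j ≤ n → ∀ w : A[X], ∃ u ∈ Ideal.span {a ^ K},
      Dop c a u - C (c ^ (n - j)) * (a ^ (K + 2 * j) * w) ∈ Ideal.map C I := by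
  induction j with
  | zero =>
    intro _ w
    refine ⟨0, Ideal.zero_mem _, ?_⟩
    rw [Dop_zero, zero_sub, Nat.sub_zero]
    exact (Ideal.neg_mem_iff _).mpr (Ideal.mul_mem_right _ _ (Ideal.mem_map_of_mem _ hc))
  | succ j ih =>
    intro hj w
    obtain ⟨u1, hu1, h1⟩ := ih (by omega)
      (((K + 2 * j + 1 : ℕ) : A[X]) * derivative a * w + a * derivative w)
    refine ⟨-(C (c ^ (n - (j + 1))) * (a ^ (K + 2 * j + 1) * w)) + u1, ?_, ?_⟩
    · refine Ideal.add_mem _ ((Ideal.neg_mem_iff _).mpr ?_) hu1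
      refine Ideal.mul_mem_left _ _ (Ideal.mul_mem_right _ _ ?_)
      rw [Ideal.mem_span_singleton]
      exact pow_dvd_pow _ (by omega)
    · have hcc : c ^ (n - j) = c ^ (n - (j + 1)) * c := by
        rw [← pow_succ]; congr 1; omega
      have e : Dop c a (-(C (c ^ (n - (j + 1))) * (a ^ (K + 2 * j + 1) * w)) + u1) -
          C (c ^ (n - (j + 1))) * (a ^ (K + 2 * (j + 1)) * w) =
          Dop c a u1 - C (c ^ (n - j)) * (a ^ (K + 2 * j) *
            (((K + 2 * j + 1 : ℕ) : A[X]) * derivative a * w + a * derivative w)) := by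
        rw [Dop_add, hcc]
        simp only [Dop, derivative_neg, derivative_mul, derivative_pow,
          derivative_C, Nat.add_sub_cancel, map_natCast, C_mul, mul_add]
        have : a ^ (K + (2 * j + 2 * 1)) = a ^ (K + 2 * j) * a * a := by ring
        rw [this, pow_succ]
        ring
      rw [e]
      exact h1

/-- `Strong` when a power of `c` is in `I`. -/
theorem strong_of_cpow {c : A} {a f : A[X]} {I : Ideal A} (n : ℕ) (hc : c ^ n ∈ I)
    (hf : ∃ h, Dop c a h = f) : Strong c a f I := by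
  intro g K
  obtain ⟨h, hh⟩ := hf
  have hfb : f ∈ Ideal.span {a} ⊔ Ideal.span {C c} := by
    rw [← hh, Dop]
    refine Ideal.sub_mem _ ?_ ?_
    · exact Ideal.mem_sup_right (Ideal.mul_mem_right _ _ (Ideal.mem_span_singleton_self _))
    · exact Ideal.mem_sup_left (Ideal.mul_mem_right _ _ (Ideal.mem_span_singleton_self _))
  refine ⟨K + 2 * n + n, fun m hm => ?_⟩
  have h1 : g * f ^ m ∈ Ideal.span {a ^ (K + 2 * n)} ⊔ Ideal.span {C c ^ n} := by
    have h2 : f ^ m ∈ (Ideal.span {a} ⊔ Ideal.span {C c}) ^ (K + 2 * n + n) :=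
      Ideal.pow_le_pow_right hm (Ideal.pow_mem_pow hfb m)
    have h3 := Ideal.sup_pow_add_le_pow_sup_pow h2
    rw [Ideal.span_singleton_pow, Ideal.span_singleton_pow] at h3
    exact Ideal.mul_mem_left _ _ h3
  rw [Submodule.mem_sup] at h1
  obtain ⟨y, hy, z, hz, hyz⟩ := h1
  rw [Ideal.mem_span_singleton] at hy hz
  obtain ⟨w, rfl⟩ := hy
  obtain ⟨w', rfl⟩ := hz
  obtain ⟨u, hu, hD⟩ := Dop_solve_cpow c a I n hc K n le_rfl w
  refine ⟨u, ?_, ?_⟩
  · rw [Ideal.map_pow]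
    have : Ideal.span {a ^ K} ≤ Ideal.map C (cI a) ^ K := by
      rw [Ideal.span_singleton_le_iff_mem]
      exact Ideal.pow_mem_pow (mem_map_cI a) K
    exact this hu
  · rw [Nat.sub_self, pow_zero, C_1, one_mul] at hD
    have e : Dop c a u - g * f ^ m = (Dop c a u - a ^ (K + 2 * n) * w) - C c ^ n * w' := by
      rw [← hyz]; ring
    rw [e]
    refine Ideal.sub_mem _ hD (Ideal.mul_mem_right _ _ ?_)
    rw [← C_pow]
    exact Ideal.mem_map_of_mem _ hc

/-- Ideals that split off a component annihilated by powers of the coefficients of `a`. -/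
def Good (c : A) (a f : A[X]) (I : Ideal A) : Prop :=
  ∃ I0 Ip : Ideal A, ∃ k : ℕ, I = I0 ⊓ Ip ∧ cI a ^ k ≤ I0 ∧ Strong c a f Ip

lemma strong_top (c : A) (a f : A[X]) : Strong c a f ⊤ := by
  intro g K
  refine ⟨0, fun m _ => ⟨0, Ideal.zero_mem _, ?_⟩⟩
  rw [Ideal.map_top]
  exact Submodule.mem_top

lemma good_inf [IsNoetherianRing A] {c : A} {a f : A[X]} {I J : Ideal A}
    (hI : Good c a f I) (hJ : Good c a f J) : Good c a f (I ⊓ J) := by
  obtain ⟨I0, Ip, k, rfl, hk, hS⟩ := hI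
  obtain ⟨J0, Jp, l, rfl, hl, hT⟩ := hJ
  refine ⟨I0 ⊓ J0, Ip ⊓ Jp, max k l, ?_, ?_, strong_inf hS hT⟩
  · rw [inf_inf_inf_comm]
  · exact le_inf ((Ideal.pow_le_pow_right (le_max_left _ _)).trans hk)
      ((Ideal.pow_le_pow_right (le_max_right _ _)).trans hl)

lemma good_of_strong {c : A} {a f : A[X]} {I : Ideal A} (h : Strong c a f I) : Good c a f I :=
  ⟨⊤, I, 0, by rw [top_inf_eq], le_top, h⟩

lemma good_of_pow_le {c : A} {a f : A[X]} {I : Ideal A} (k : ℕ) (h : cI a ^ k ≤ I) :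
    Good c a f I :=
  ⟨I, ⊤, k, by rw [inf_top_eq], h, strong_top _ _ _⟩

/-- If all primary ideals are good then zero is good. -/
lemma good_bot [IsNoetherianRing A] {c : A} {a f : A[X]}
    (h : ∀ Q : Ideal A, Q.IsPrimary → Good c a f Q) : Good c a f ⊥ := by
  obtain ⟨s, hs, hp⟩ := Submodule.isLasker A A ⊥
  rw [← hs]
  clear hs
  induction s using Finset.induction_on with
  | empty =>
    rw [Finset.inf_empty]
    exact good_of_strong (strong_top _ _ _)
  | insert Q s _ ih =>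
    rw [Finset.inf_insert]
    exact good_inf (h Q (hp (Finset.mem_insert_self _ _)))
      (ih fun J hJ => hp (Finset.mem_insert_of_mem hJ))

end

section Final

variable {A : Type*} [CommRing A] [Algebra ℚ A]

/-- An antiderivative. -/
noncomputable def antid (w : A[X]) : A[X] :=
  w.sum fun n x => C (algebraMap ℚ A ((n : ℚ) + 1)⁻¹ * x) * X ^ (n + 1)

lemma derivative_antid (w : A[X]) : derivative (antid w) = w := by
  rw [antid, Polynomial.sum, derivative_sum]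
  conv_rhs => rw [w.as_sum_support]
  refine Finset.sum_congr rfl fun n _ => ?_
  rw [derivative_C_mul_X_pow, Nat.add_sub_cancel, ← C_mul_X_pow_eq_monomial]
  congr 2
  have h : (algebraMap ℚ A ((n : ℚ) + 1)⁻¹) * ((n + 1 : ℕ) : A) = 1 := by
    have h1 : ((n + 1 : ℕ) : A) = algebraMap ℚ A ((n : ℚ) + 1) := by
      rw [map_add, map_natCast, map_one, Nat.cast_add, Nat.cast_one]
    rw [h1, ← map_mul, inv_mul_cancel₀ (by positivity), map_one]
  calc algebraMap ℚ A ((n : ℚ) + 1)⁻¹ * w.coeff n * ((n + 1 : ℕ) : A)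
      = (algebraMap ℚ A ((n : ℚ) + 1)⁻¹ * ((n + 1 : ℕ) : A)) * w.coeff n := by ring
    _ = w.coeff n := by rw [h, one_mul]

lemma antid_mem (w : A[X]) (I : Ideal A) (hw : w ∈ Ideal.map C I) :
    antid w ∈ Ideal.map C I := by
  rw [Ideal.mem_map_C_iff] at hw
  rw [antid, Polynomial.sum]
  refine Ideal.sum_mem _ fun n _ => Ideal.mul_mem_right _ _ (Ideal.mem_map_of_mem _ ?_)
  exact Ideal.mul_mem_left _ _ (hw n)

lemma solve_nil (c : A) (a : A[X]) (I : Ideal A) (k : ℕ) (hk : cI a ^ k * I = ⊥) (j : ℕ) :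
    j ≤ k → ∀ w ∈ Ideal.map C (cI a ^ (k - j) * I), ∃ u, Dop c a u = C (c ^ j) * w := by
  induction j with
  | zero =>
    intro _ w hw
    rw [Nat.sub_zero, hk, Ideal.map_bot, Ideal.mem_bot] at hw
    exact ⟨0, by rw [hw, Dop_zero, mul_zero]⟩
  | succ j ih =>
    intro hj w hw
    have h1 : a * antid w ∈ Ideal.map C (cI a ^ (k - j) * I) := by
      have h2 : k - j = (k - (j + 1)) + 1 := by omega
      rw [h2, pow_succ', mul_assoc, Ideal.map_mul]
      exact Ideal.mul_mem_mul (mem_map_cI a) (antid_mem w _ hw)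
    obtain ⟨v, hv⟩ := ih (by omega) _ h1
    refine ⟨C (c ^ j) * antid w + v, ?_⟩
    rw [Dop_add, hv, Dop_C_mul, Dop, derivative_antid, pow_succ, C_mul]
    ring

/-- The final step. -/
theorem final_step [IsNoetherianRing A] {c : A} {a f : A[X]} (hf : ∃ h, Dop c a h = f)
    (hgood : Good c a f ⊥) (g : A[X]) :
    ∃ N, ∀ m, N ≤ m → ∃ u, Dop c a u = g * f ^ m := by
  obtain ⟨I0, Ip, k, hbot, hk, hS⟩ := hgood
  set b : Ideal A := Ideal.span {c} ⊔ cI a with hb
  obtain ⟨n0, hn0⟩ := Ideal.exists_pow_inf_eq_pow_smul b (M := A) Ip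
  set L := n0 + (k + k) with hL
  obtain ⟨m0, hm0⟩ := hS g L
  have hkI : cI a ^ k * Ip = ⊥ := by
    rw [eq_bot_iff, hbot]
    exact le_inf (Ideal.mul_le_left.trans hk) Ideal.mul_le_right
  have hfb : f ∈ Ideal.map C b := by
    obtain ⟨h, hh⟩ := hf
    rw [← hh, Dop, hb, Ideal.map_sup]
    refine Ideal.sub_mem _ ?_ ?_
    · refine Ideal.mem_sup_left (Ideal.mul_mem_right _ _ (Ideal.mem_map_of_mem _ ?_))
      exact Ideal.mem_span_singleton_self _
    · exact Ideal.mem_sup_right (Ideal.mul_mem_right _ _ (mem_map_cI a))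
  refine ⟨max m0 L, fun m hm => ?_⟩
  obtain ⟨u, hu, hD⟩ := hm0 m ((le_max_left _ _).trans hm)
  set r := g * f ^ m - Dop c a u with hr
  have hrI : r ∈ Ideal.map C Ip := by
    have : r = -(Dop c a u - g * f ^ m) := by rw [hr]; ring
    rw [this]
    exact (Ideal.neg_mem_iff _).mpr hD
  have hrb : r ∈ Ideal.map C (b ^ L) := by
    rw [hr]
    refine Ideal.sub_mem _ (Ideal.mul_mem_left _ _ ?_) ?_
    · rw [Ideal.map_pow]
      exact Ideal.pow_le_pow_right ((le_max_right _ _).trans hm) (Ideal.pow_mem_pow hfb m)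
    · refine map_C_mono (Ideal.pow_right_mono le_sup_right L) ?_
      exact Dop_mem _ _ _ _ hu
  have hbb : b ^ (k + k) * Ip ≤ Ideal.span {c ^ k} * Ip := by
    calc b ^ (k + k) * Ip ≤ (Ideal.span {c} ^ k ⊔ cI a ^ k) * Ip :=
          Ideal.mul_mono_left Ideal.sup_pow_add_le_pow_sup_pow
      _ = Ideal.span {c} ^ k * Ip ⊔ cI a ^ k * Ip := Ideal.sup_mul _ _ _
      _ = Ideal.span {c ^ k} * Ip := by rw [hkI, sup_bot_eq, Ideal.span_singleton_pow]
  have hr2 : r ∈ Ideal.map C (Ideal.span {c ^ k} * Ip) := by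
    rw [Ideal.mem_map_C_iff] at hrI hrb ⊢
    intro i
    have h2 : r.coeff i ∈ b ^ L • (⊤ : Submodule A A) ⊓ Ip := by
      refine ⟨?_, hrI i⟩
      rw [smul_eq_mul, Ideal.mul_top]
      exact hrb i
    rw [hn0 L (by omega)] at h2
    have h3 : L - n0 = k + k := by omega
    rw [h3, smul_eq_mul] at h2
    exact hbb (Ideal.mul_mono_right inf_le_right h2)
  rw [Ideal.map_mul, Ideal.map_span, Set.image_singleton, Ideal.mem_span_singleton_mul] at hr2
  obtain ⟨r1, hr1, hr1'⟩ := hr2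
  obtain ⟨v, hv⟩ := solve_nil c a Ip k hkI k le_rfl r1
    (by rw [Nat.sub_self, pow_zero, Ideal.one_eq_top, Ideal.top_mul]; exact hr1)
  refine ⟨u + v, ?_⟩
  rw [Dop_add, hv, hr1', hr]
  ring

end Final

end Pool.Agent.H.MP_405479_al
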