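import Pool.Agent.H.MP_405479_al.Basic

set_option autoImplicit false

open Polynomial

namespace Pool.Agent.H.MP_405479_al

section Kernel

variable {B : Type*} [CommRing B]

/-- Ideal generated by the coefficients of index at least `j`. -/
def tailI (a : B[X]) (j : ℕ) : Ideal B := Ideal.span {x | ∃ i, j ≤ i ∧ x = a.coeff i}

lemma ker_step (c : B) (a u : B[X]) (h : C c * derivative u = a * u) (j : ℕ) (l : ℕ) :
    ∀ t, u.natDegree < t + l → a.coeff j ^ l * u.coeff t ∈ tailI a (j + 1) * cI u := by
  induction l with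
  | zero =>
    intro t ht
    have h0 : u.coeff t = 0 := Polynomial.coeff_eq_zero_of_natDegree_lt (by omega)
    rw [h0, mul_zero]
    exact Ideal.zero_mem _
  | succ l ih =>
    intro t ht
    have hk : (C c * derivative u).coeff (j + t) = (a * u).coeff (j + t) := by rw [h]
    rw [coeff_C_mul, coeff_derivative, coeff_mul] at hk
    have hmem : (j, t) ∈ Finset.HasAntidiagonal.antidiagonal (j + t) := by simp
    rw [← Finset.add_sum_erase _ _ hmem] at hk
    have e1 : a.coeff j * u.coeff t = c * (u.coeff (j + t + 1) * (((j + t : ℕ) : B) + 1)) -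
        ∑ x ∈ (Finset.HasAntidiagonal.antidiagonal (j + t)).erase (j, t),
          a.coeff x.1 * u.coeff x.2 := by
      rw [hk]; ring
    rw [pow_succ, mul_assoc, e1, mul_sub]
    refine Ideal.sub_mem _ ?_ ?_
    · have := ih (j + t + 1) (by omega)
      have e2 : a.coeff j ^ l * (c * (u.coeff (j + t + 1) * (((j + t : ℕ) : B) + 1))) =
          (c * (((j + t : ℕ) : B) + 1)) * (a.coeff j ^ l * u.coeff (j + t + 1)) := by ring
      rw [e2]
      exact Ideal.mul_mem_left _ _ this
    · rw [Finset.mul_sum]
      refine Ideal.sum_mem _ fun x hx => ?_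
      rw [Finset.mem_erase, Finset.HasAntidiagonal.mem_antidiagonal] at hx
      obtain ⟨hne, hsum⟩ := hx
      by_cases hj : j < x.1
      · refine Ideal.mul_mem_left _ _ (Ideal.mul_mem_mul ?_ (coeff_mem_cI u _))
        exact Ideal.subset_span ⟨x.1, hj, rfl⟩
      · have hlt : t < x.2 := by
          rcases lt_or_eq_of_le (not_lt.mp hj) with h1 | h1
          · omega
          · exfalso
            apply hne
            ext
            · exact h1
            · omega
        have := ih x.2 (by omega)
        have e3 : a.coeff j ^ l * (a.coeff x.1 * u.coeff x.2) =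
            a.coeff x.1 * (a.coeff j ^ l * u.coeff x.2) := by ring
        rw [e3]
        exact Ideal.mul_mem_left _ _ this

lemma ker_tail (c : B) (a u : B[X]) (h : C c * derivative u = a * u) (k : ℕ) :
    ∀ j, a.natDegree + 1 ≤ j + k → ∃ n, tailI a j ^ n * cI u = ⊥ := by
  induction k with
  | zero =>
    intro j hj
    refine ⟨1, ?_⟩
    have : tailI a j = ⊥ := by
      rw [eq_bot_iff, tailI, Ideal.span_le]
      rintro x ⟨i, hi, rfl⟩
      rw [Polynomial.coeff_eq_zero_of_natDegree_lt (by omega)]
      exact Ideal.zero_mem _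
    rw [this, pow_one, Ideal.bot_mul]
  | succ k ih =>
    intro j hj
    obtain ⟨n, hn⟩ := ih (j + 1) (by omega)
    set r := u.natDegree with hr
    set s : Ideal B := Ideal.span {a.coeff j ^ (r + 1)} with hs
    set W := tailI a (j + 1) with hW
    have h1 : s * cI u ≤ W * cI u := by
      rw [hs, cI, Ideal.span_mul_span', Ideal.span_le]
      rintro x hx
      rw [Set.mem_mul] at hx
      obtain ⟨y, hy, z, hz, rfl⟩ := hx
      rw [Set.mem_singleton_iff] at hy
      obtain ⟨t, rfl⟩ := hz
      subst hy
      exact ker_step c a u h j (r + 1) t (by omega)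
    have h2 : ∀ m, s ^ m * cI u ≤ W ^ m * cI u := by
      intro m
      induction m with
      | zero => simp
      | succ m ihm =>
        calc s ^ (m + 1) * cI u = s ^ m * (s * cI u) := by rw [pow_succ, mul_assoc]
          _ ≤ s ^ m * (W * cI u) := Ideal.mul_mono_right h1
          _ = W * (s ^ m * cI u) := by ring
          _ ≤ W * (W ^ m * cI u) := Ideal.mul_mono_right ihm
          _ = W ^ (m + 1) * cI u := by ring
    have h3 : s ^ n * cI u = ⊥ := by
      rw [eq_bot_iff, ← hn]
      exact h2 n
    have h4 : tailI a j ≤ Ideal.span {a.coeff j} ⊔ W := by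
      rw [tailI, Ideal.span_le]
      rintro x ⟨i, hi, rfl⟩
      rcases eq_or_lt_of_le hi with h5 | h5
      · subst h5
        exact Ideal.mem_sup_left (Ideal.mem_span_singleton_self _)
      · exact Ideal.mem_sup_right (Ideal.subset_span ⟨i, h5, rfl⟩)
    refine ⟨(r + 1) * n + n, ?_⟩
    rw [eq_bot_iff]
    calc tailI a j ^ ((r + 1) * n + n) * cI u
        ≤ (Ideal.span {a.coeff j} ⊔ W) ^ ((r + 1) * n + n) * cI u :=
          Ideal.mul_mono_left (Ideal.pow_right_mono h4 _)
      _ ≤ (Ideal.span {a.coeff j} ^ ((r + 1) * n) ⊔ W ^ n) * cI u :=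
          Ideal.mul_mono_left Ideal.sup_pow_add_le_pow_sup_pow
      _ = Ideal.span {a.coeff j} ^ ((r + 1) * n) * cI u ⊔ W ^ n * cI u := Ideal.sup_mul _ _ _
      _ = s ^ n * cI u ⊔ W ^ n * cI u := by
          rw [hs, Ideal.span_singleton_pow, Ideal.span_singleton_pow, pow_mul]
      _ ≤ ⊥ := by rw [h3, hn, sup_idem]

/-- Kernel lemma: if `c u' = a u` then a power of the coefficient ideal of `a` kills `u`. -/
theorem ker_lemma (c : B) (a u : B[X]) (h : Dop c a u = 0) :
    ∃ n, ∀ z ∈ cI a ^ n, C z * u = 0 := by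
  have h' : C c * derivative u = a * u := by
    rw [Dop] at h
    exact sub_eq_zero.mp h
  obtain ⟨n, hn⟩ := ker_tail c a u h' (a.natDegree + 1) 0 (by omega)
  refine ⟨n, fun z hz => ?_⟩
  have : cI a = tailI a 0 := by
    rw [cI, tailI]
    congr 1
    ext x
    constructor
    · rintro ⟨i, rfl⟩
      exact ⟨i, Nat.zero_le _, rfl⟩
    · rintro ⟨i, _, rfl⟩
      exact ⟨i, rfl⟩
  rw [this] at hz
  ext i
  rw [coeff_C_mul, coeff_zero]
  have : z * u.coeff i ∈ tailI a 0 ^ n * cI u := Ideal.mul_mem_mul hz (coeff_mem_cI u i)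
  rw [hn] at this
  exact this

end Kernel

end Pool.Agent.H.MP_405479_al
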