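import Pool.Agent.H.MP_405479_al.CharP

set_option autoImplicit false

open Polynomial

namespace Pool.Agent.H.MP_405479_al

section Val

variable {K : Type*} [Field K]

lemma exists_valuationSubring [CharZero K] (p : ℕ) (hp : p.Prime) :
    ∃ O : ValuationSubring K, (p : K) ∈ O.nonunits := by
  let A : Subring K := (Int.castRingHom K).range
  let x : A := ⟨(p : K), ⟨(p : ℤ), by simp⟩⟩
  have hI : Ideal.span {x} ≠ ⊤ := by
    intro h
    rw [Ideal.span_singleton_eq_top] at h
    obtain ⟨⟨_, ⟨n, rfl⟩⟩, hy⟩ := h.exists_right_inv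
    have h1 := congrArg Subtype.val hy
    have h2 : (((p : ℤ) * n : ℤ) : K) = ((1 : ℤ) : K) := by
      simpa [x] using h1
    have h3 : (p : ℤ) * n = 1 := by exact_mod_cast h2
    have h4 : (p : ℤ) ∣ 1 := ⟨n, h3.symm⟩
    have h5 : p ∣ 1 := by exact_mod_cast h4
    exact hp.one_lt.ne' (Nat.dvd_one.mp h5)
  obtain ⟨O, _, hO⟩ := Ideal.image_subset_nonunits_valuationSubring (Ideal.span {x}) hI
  exact ⟨O, hO ⟨x, Ideal.mem_span_singleton_self x, rfl⟩⟩

lemma exists_scale (O : ValuationSubring K) (f : K[X]) (hf : f ≠ 0) :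
    ∃ (μ : K) (f0 : O[X]), μ ≠ 0 ∧ f = C μ * f0.map (algebraMap O K) ∧
      f0.map (IsLocalRing.residue O) ≠ 0 := by
  obtain ⟨j, hj, hmax⟩ := Finset.exists_max_image f.support (fun i => O.valuation (f.coeff i))
    (nonempty_support_iff.mpr hf)
  have hμ : f.coeff j ≠ 0 := mem_support_iff.mp hj
  have hlift : C (f.coeff j)⁻¹ * f ∈ lifts (algebraMap O K) := by
    rw [lifts_iff_coeff_lifts]
    intro i
    rw [coeff_C_mul]
    have hmem : (f.coeff j)⁻¹ * f.coeff i ∈ O := by
      by_cases hi : f.coeff i = 0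
      · rw [hi, mul_zero]; exact O.zero_mem
      · rw [← O.valuation_le_one_iff, map_mul, map_inv₀]
        have h1 := hmax i (mem_support_iff.mpr hi)
        have h2 : O.valuation (f.coeff j) ≠ 0 := (Valuation.ne_zero_iff _).mpr hμ
        rw [inv_mul_le_iff₀ (zero_lt_iff.mpr h2), mul_one]
        exact h1
    exact ⟨⟨_, hmem⟩, rfl⟩
  rw [mem_lifts] at hlift
  obtain ⟨f0, hf0⟩ := hlift
  refine ⟨f.coeff j, f0, hμ, ?_, ?_⟩
  · rw [hf0, ← mul_assoc, ← C_mul, mul_inv_cancel₀ hμ, C_1, one_mul]
  · intro h0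
    have h1 : (f0.map (IsLocalRing.residue O)).coeff j = 0 := by rw [h0, coeff_zero]
    rw [coeff_map] at h1
    have h2 : algebraMap O K (f0.coeff j) = 1 := by
      rw [← coeff_map, hf0, coeff_C_mul, inv_mul_cancel₀ hμ]
    have h3 : f0.coeff j = 1 := by
      apply Subtype.ext
      exact h2
    rw [h3, map_one] at h1
    exact one_ne_zero h1

lemma charP_residue (p : ℕ) [Fact p.Prime] (O : ValuationSubring K)
    (hO : (p : K) ∈ O.nonunits) : CharP (IsLocalRing.ResidueField O) p := by
  rw [CharP.charP_iff_prime_eq_zero (Fact.out : p.Prime)]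
  have h1 : ((p : O) : K) ∈ O.nonunits := by simpa using hO
  rw [ValuationSubring.coe_mem_nonunits_iff] at h1
  have h2 := (IsLocalRing.residue_eq_zero_iff (p : O)).mpr h1
  rwa [map_natCast] at h2

lemma algebraMap_poly_injective (O : ValuationSubring K) :
    Function.Injective (Polynomial.map (algebraMap O K)) :=
  Polynomial.map_injective _ Subtype.val_injective

lemma step_red (O : ValuationSubring K) (a0 f0 : O[X])
    (ha1 : 1 ≤ (a0.map (IsLocalRing.residue O)).natDegree) (h1 : K[X])
    (hh : derivative h1 - a0.map (algebraMap O K) * h1 = f0.map (algebraMap O K)) :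
    ∃ h, derivative h - a0.map (IsLocalRing.residue O) * h = f0.map (IsLocalRing.residue O) := by
  by_cases h10 : h1 = 0
  · subst h10
    rw [derivative_zero, mul_zero, sub_zero] at hh
    have : f0 = 0 := by
      apply algebraMap_poly_injective O
      rw [← hh, Polynomial.map_zero]
    refine ⟨0, ?_⟩
    rw [this, derivative_zero, mul_zero, sub_zero, Polynomial.map_zero]
  · obtain ⟨ν, h2, hν, hh1, hh2⟩ := exists_scale O h1 h10
    by_cases hνO : ν ∈ O
    · obtain ⟨ν', hν'⟩ : ∃ ν' : O, algebraMap O K ν' = ν := ⟨⟨ν, hνO⟩, rfl⟩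
      have h3 : derivative (C ν' * h2) - a0 * (C ν' * h2) = f0 := by
        apply algebraMap_poly_injective O
        rw [← hh, hh1, ← hν']
        simp only [Polynomial.map_sub, Polynomial.map_mul, derivative_map, map_C, derivative_C_mul]
      refine ⟨(C ν' * h2).map (IsLocalRing.residue O), ?_⟩
      rw [← h3, Polynomial.map_sub, Polynomial.map_mul (IsLocalRing.residue O) (p := a0),
        derivative_map]
    · exfalso
      have hi : ν⁻¹ ∈ O.nonunits := O.inv_mem_nonunits_iff.mpr (Or.inr hνO)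
      have hiO : ν⁻¹ ∈ O := O.nonunits_subset hi
      have h3 : derivative h2 - a0 * h2 = C ⟨ν⁻¹, hiO⟩ * f0 := by
        apply algebraMap_poly_injective O
        have e : (C (⟨ν⁻¹, hiO⟩ : O) * f0).map (algebraMap O K) =
            C ν⁻¹ * f0.map (algebraMap O K) := by
          rw [Polynomial.map_mul, map_C]; rfl
        rw [e, ← hh, hh1]
        simp only [Polynomial.map_sub, Polynomial.map_mul, derivative_map, derivative_C_mul]
        have e2 : (C ν⁻¹ * C ν : K[X]) = 1 := by
          rw [← C_mul, inv_mul_cancel₀ hν, C_1]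
        linear_combination (-((derivative h2).map (algebraMap O K)) +
          a0.map (algebraMap O K) * h2.map (algebraMap O K)) * e2
      have h4 := congrArg (Polynomial.map (IsLocalRing.residue O)) h3
      have hz : IsLocalRing.residue O ⟨ν⁻¹, hiO⟩ = 0 := by
        rw [IsLocalRing.residue_eq_zero_iff, ← ValuationSubring.coe_mem_nonunits_iff]
        exact hi
      rw [Polynomial.map_mul, map_C, hz, C_0, zero_mul, Polynomial.map_sub, Polynomial.map_mul,
        ← derivative_map, ← C_0] at h4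
      exact natDegree_contra' _ _ ha1 0 hh2 h4

lemma step_A (p : ℕ) [Fact p.Prime] (O : ValuationSubring K) (hO : (p : K) ∈ O.nonunits)
    (a0 : O[X]) (ha1 : 1 ≤ (a0.map (IsLocalRing.residue O)).natDegree)
    (hdeg : (a0.map (algebraMap O K)).natDegree + 1 < p) (f : K[X]) (hf : f ≠ 0)
    (hdiv : ∀ n, 1 ≤ n → n ≤ f.natDegree → n ∣ p - 1)
    (hpow : ∀ m, 1 ≤ m → m ≤ p → ∃ h, derivative h - a0.map (algebraMap O K) * h = f ^ m) :
    False := by
  obtain ⟨μ, f0, hμ, hf0, hres⟩ := exists_scale O f hf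
  have := charP_residue p O hO
  set κ := IsLocalRing.ResidueField O with hκ
  set j := algebraMap κ (AlgebraicClosure κ) with hj
  have hjinj : Function.Injective j := j.injective
  have hd1 : a0.natDegree = (a0.map (algebraMap O K)).natDegree :=
    (natDegree_map_eq_of_injective Subtype.val_injective a0).symm
  have hd2 : f0.natDegree = f.natDegree := by
    rw [hf0, natDegree_C_mul hμ]
    exact (natDegree_map_eq_of_injective Subtype.val_injective f0).symm
  refine charp_main p (((a0.map (IsLocalRing.residue O)).map j)) ((f0.map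
    (IsLocalRing.residue O)).map j) ?_ ?_ ?_ ?_ ?_
  · rw [natDegree_map_eq_of_injective hjinj]
    have := natDegree_map_le (f := IsLocalRing.residue O) (p := a0)
    omega
  · rw [natDegree_map_eq_of_injective hjinj]
    exact ha1
  · rw [Ne, Polynomial.map_eq_zero_iff hjinj]
    exact hres
  · intro n hn1 hn2
    apply hdiv n hn1
    rw [natDegree_map_eq_of_injective hjinj] at hn2
    have := natDegree_map_le (f := IsLocalRing.residue O) (p := f0)
    omega
  · intro m hm1 hm2
    obtain ⟨h, hh⟩ := hpow m hm1 hm2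
    obtain ⟨h', hh'⟩ := step_red O a0 (f0 ^ m) ha1 (C ((μ ^ m)⁻¹) * h) (by
      rw [Polynomial.map_pow, derivative_C_mul]
      have e : (C ((μ ^ m)⁻¹) : K[X]) * C (μ ^ m) = 1 := by
        rw [← C_mul, inv_mul_cancel₀ (pow_ne_zero _ hμ), C_1]
      rw [hf0, mul_pow, ← C_pow] at hh
      calc C ((μ ^ m)⁻¹) * derivative h -
            a0.map (algebraMap O K) * (C ((μ ^ m)⁻¹) * h)
          = C ((μ ^ m)⁻¹) * (derivative h - a0.map (algebraMap O K) * h) := by ring
        _ = (C ((μ ^ m)⁻¹) * C (μ ^ m)) * (f0.map (algebraMap O K)) ^ m := by rw [hh]; ring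
        _ = _ := by rw [e, one_mul])
    refine ⟨h'.map j, ?_⟩
    rw [derivative_map, ← Polynomial.map_mul, ← Polynomial.map_sub, hh', Polynomial.map_pow,
      Polynomial.map_pow]

/-- The statement over an algebraically closed field of characteristic zero. -/
theorem field_main [CharZero K] [IsAlgClosed K] (p : ℕ) [Fact p.Prime] (a f : K[X])
    (ha : a.natDegree + 1 < p) (ha1 : 1 ≤ a.natDegree) (hf : f ≠ 0)
    (hdiv : ∀ n, 1 ≤ n → n ≤ f.natDegree → n ∣ p - 1)
    (hpow : ∀ m, 1 ≤ m → m ≤ p → ∃ h, derivative h - a * h = f ^ m) : False := by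
  obtain ⟨O, hO⟩ := exists_valuationSubring (K := K) p (Fact.out : p.Prime)
  obtain ⟨τ, hτ⟩ := IsAlgClosed.exists_root a (by
    intro h
    have : a.natDegree = 0 := natDegree_eq_of_degree_eq_some (n := 0) h
    omega)
  have hτ' : a.eval τ = 0 := hτ
  set a1 := a.comp (X + C τ) with ha1def
  have ha10 : a1.coeff 0 = 0 := by
    rw [coeff_zero_eq_eval_zero, ha1def, eval_comp]
    simpa using hτ'
  have ha1deg : a1.natDegree = a.natDegree := natDegree_comp_X_add_C τ a
  have ha1ne : a1 ≠ 0 := by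
    intro h
    rw [h] at ha1deg
    simp at ha1deg
    omega
  have hroot : ∀ i : ℕ, ∃ r : K, r ^ (i + 1) = (a1.coeff i)⁻¹ := fun i =>
    IsAlgClosed.exists_pow_nat_eq _ (Nat.succ_pos i)
  choose r hr using hroot
  obtain ⟨j, hj, hmin⟩ := Finset.exists_min_image a1.support (fun i => O.valuation (r i))
    (nonempty_support_iff.mpr ha1ne)
  have hj0 : a1.coeff j ≠ 0 := mem_support_iff.mp hj
  have hj1 : 1 ≤ j := by
    rcases Nat.eq_zero_or_pos j with h0 | h0
    · rw [h0] at hj0
      exact absurd ha10 hj0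
    · exact h0
  set l := r j with hl
  have hlne : l ≠ 0 := by
    intro h0
    have h1 := hr j
    rw [← hl, h0, zero_pow (Nat.succ_ne_zero j)] at h1
    exact hj0 (inv_eq_zero.mp h1.symm)
  set a2 := C l * a1.comp (C l * X) with ha2
  have hcoeff : ∀ i, a2.coeff i = l ^ (i + 1) * a1.coeff i := by
    intro i
    rw [ha2, coeff_C_mul, comp_C_mul_X_coeff, pow_succ]
    ring
  have hlift : a2 ∈ lifts (algebraMap O K) := by
    rw [lifts_iff_coeff_lifts]
    intro i
    have hmem : a2.coeff i ∈ O := by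
      rw [hcoeff]
      by_cases hi : a1.coeff i = 0
      · rw [hi, mul_zero]; exact O.zero_mem
      · rw [← O.valuation_le_one_iff, map_mul, map_pow]
        have h1 := hmin i (mem_support_iff.mpr hi)
        have h2 : O.valuation (r i) ^ (i + 1) * O.valuation (a1.coeff i) = 1 := by
          rw [← map_pow, hr i, ← map_mul, inv_mul_cancel₀ hi, map_one]
        rw [← h2]
        gcongr
    exact ⟨⟨_, hmem⟩, rfl⟩
  rw [mem_lifts] at hlift
  obtain ⟨a0, ha0⟩ := hlift
  set f1 := f.comp (X + C τ) with hf1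
  set f2 := f1.comp (C l * X) with hf2
  have hcommne : ∀ q : K[X], q ≠ 0 → q.comp (C l * X) ≠ 0 := by
    intro q hq h0
    apply hq
    ext i
    have h1 : (q.comp (C l * X)).coeff i = 0 := by rw [h0, coeff_zero]
    rw [comp_C_mul_X_coeff] at h1
    rw [coeff_zero]
    exact (mul_eq_zero.mp h1).resolve_right (pow_ne_zero _ hlne)
  have hf1deg : f1.natDegree = f.natDegree := natDegree_comp_X_add_C τ f
  have hf1ne : f1 ≠ 0 := by
    intro h0
    have h1 : f1.comp (X - C τ) = f := by
      rw [hf1, comp_assoc]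
      simp
    rw [h0, zero_comp] at h1
    exact hf h1.symm
  have hf2ne : f2 ≠ 0 := hcommne f1 hf1ne
  have hlX : (C l * X : K[X]).natDegree = 1 := natDegree_C_mul_X l hlne
  have hf2deg : f2.natDegree = f.natDegree := by
    rw [hf2, natDegree_comp, hlX, mul_one, hf1deg]
  refine step_A p O hO a0 ?_ ?_ f2 hf2ne ?_ ?_
  · have h1 : (a0.map (IsLocalRing.residue O)).coeff j ≠ 0 := by
      rw [coeff_map]
      have h2 : algebraMap O K (a0.coeff j) = 1 := by
        rw [← coeff_map, ha0, hcoeff, hl, hr j, inv_mul_cancel₀ hj0]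
      have h3 : a0.coeff j = 1 := Subtype.ext h2
      rw [h3, map_one]
      exact one_ne_zero
    exact hj1.trans (le_natDegree_of_ne_zero h1)
  · rw [ha0, ha2, natDegree_C_mul hlne, natDegree_comp, hlX, mul_one, ha1deg]
    exact ha
  · intro n hn1 hn2
    exact hdiv n hn1 (hf2deg ▸ hn2)
  · intro m hm1 hm2
    obtain ⟨h, hh⟩ := hpow m hm1 hm2
    have h1 := comp_eq τ a h _ hh
    rw [pow_comp, ← hf1, ← ha1def] at h1
    set h2 := h.comp (X + C τ) with hh2
    refine ⟨C l⁻¹ * h2.comp (C l * X), ?_⟩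
    have e : (C l⁻¹ : K[X]) * C l = 1 := by
      rw [← C_mul, inv_mul_cancel₀ hlne, C_1]
    have e2 : derivative (h2.comp (C l * X)) = C l * (derivative h2).comp (C l * X) := by
      rw [derivative_comp, derivative_C_mul, derivative_X, mul_one]
    have e3 : f2 ^ m = (derivative h2).comp (C l * X) -
        a1.comp (C l * X) * h2.comp (C l * X) := by
      rw [hf2, ← pow_comp, ← h1, sub_comp, mul_comp]
    rw [e3, ha0, ha2, derivative_C_mul, e2]
    linear_combination ((derivative h2).comp (C l * X) -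
      a1.comp (C l * X) * h2.comp (C l * X)) * e

end Val

section Fact

/-- The factorial functional `X^i ↦ i!`. -/
noncomputable def Lf {R : Type*} [CommRing R] (G : R[X]) : R :=
  G.sum fun i x => ((i.factorial : ℕ) : R) * x

lemma Lf_eq {R : Type*} [CommRing R] (G : R[X]) (N : ℕ) (hN : G.natDegree < N) :
    Lf G = ∑ i ∈ Finset.range N, ((i.factorial : ℕ) : R) * G.coeff i := by
  rw [Lf]
  exact sum_over_range' G (fun i => mul_zero _) N hN

lemma Lf_map {R S : Type*} [CommRing R] [CommRing S] (φ : R →+* S) (G : R[X]) :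
    Lf (G.map φ) = φ (Lf G) := by
  have h1 : (G.map φ).natDegree < G.natDegree + 1 := Nat.lt_succ_of_le natDegree_map_le
  rw [Lf_eq _ _ h1, Lf_eq G _ (Nat.lt_succ_self _), map_sum]
  refine Finset.sum_congr rfl fun i _ => ?_
  rw [coeff_map, map_mul, map_natCast]

lemma Lf_C_mul {R : Type*} [CommRing R] (z : R) (G : R[X]) : Lf (C z * G) = z * Lf G := by
  have h1 : (C z * G).natDegree < G.natDegree + 1 := Nat.lt_succ_of_le (natDegree_C_mul_le z G)
  rw [Lf_eq _ _ h1, Lf_eq G _ (Nat.lt_succ_self _), Finset.mul_sum]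
  refine Finset.sum_congr rfl fun i _ => ?_
  rw [coeff_C_mul]
  ring

lemma Lf_charp {k : Type*} [Field k] (p : ℕ) [Fact p.Prime] [CharP k p] (G : k[X]) (i0 : ℕ)
    (h : ∀ i, i < p → i ≠ i0 → G.coeff i = 0) :
    Lf G = ((i0.factorial : ℕ) : k) * G.coeff i0 := by
  have h1 : G.natDegree < G.natDegree + i0 + 1 := by omega
  rw [Lf_eq G _ h1]
  refine Finset.sum_eq_single i0 ?_ ?_
  · intro i _ hi
    by_cases hip : i < p
    · rw [h i hip hi, mul_zero]
    · have : ((i.factorial : ℕ) : k) = 0 := by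
        rw [CharP.cast_eq_zero_iff k p, (Fact.out : p.Prime).dvd_factorial]
        omega
      rw [this, zero_mul]
  · intro h2
    exact absurd (Finset.mem_range.mpr (by omega)) h2

lemma fact_charp {k : Type*} [Field k] (p : ℕ) [Fact p.Prime] [CharP k p] (F : k[X]) (hF : F ≠ 0)
    (hdiv : ∀ n, 1 ≤ n → n ≤ F.natDegree → n ∣ p - 1)
    (hpow : ∀ m, 1 ≤ m → m ≤ p → Lf (F ^ m) = 0) : False := by
  have hp : 1 < p := (Fact.out : p.Prime).one_lt
  obtain ⟨q, hq, hnd⟩ := exists_eq_pow_rootMultiplicity_mul_and_not_dvd F hF 0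
  set n := rootMultiplicity 0 F with hn
  rw [C_0, sub_zero] at hq hnd
  have hq0 : q.coeff 0 ≠ 0 := fun h => hnd (X_dvd_iff.mpr h)
  have hqne : q ≠ 0 := by
    rintro rfl
    exact hq0 rfl
  rcases Nat.eq_zero_or_pos n with h0 | h0
  · rw [h0, pow_zero, one_mul] at hq
    subst hq
    have h1 := hpow p (by omega) le_rfl
    rw [Lf_charp p (F ^ p) 0] at h1
    · rw [Nat.factorial_zero, Nat.cast_one, one_mul, coeff_zero_eq_eval_zero, eval_pow,
        ← coeff_zero_eq_eval_zero] at h1
      exact hq0 (pow_eq_zero_iff (by omega) |>.mp h1)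
    · intro i hi hi0
      rw [← map_frobenius_expand, coeff_map, coeff_expand (by omega), if_neg, map_zero]
      intro hd
      exact absurd (Nat.le_of_dvd (Nat.pos_of_ne_zero hi0) hd) (by omega)
  · have hn2 : n ≤ F.natDegree := by
      rw [hq, natDegree_mul (pow_ne_zero _ X_ne_zero) hqne, natDegree_pow, natDegree_X]
      omega
    obtain ⟨m, hm⟩ := hdiv n h0 hn2
    have hm1 : 1 ≤ m := by
      rcases Nat.eq_zero_or_pos m with h0 | h0
      · rw [h0, mul_zero] at hm
        omega
      · exact h0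
    have hm2 : m ≤ p := by
      have : m ≤ n * m := Nat.le_mul_of_pos_left m h0
      omega
    have h1 := hpow m hm1 hm2
    have h2 : F ^ m = X ^ (p - 1) * q ^ m := by
      rw [hq, mul_pow, ← pow_mul, ← hm]
    rw [h2, Lf_charp p _ (p - 1)] at h1
    · have h3 : (X ^ (p - 1) * q ^ m).coeff (p - 1) = q.coeff 0 ^ m := by
        rw [mul_comm]
        have := coeff_mul_X_pow (q ^ m) (p - 1) 0
        rw [zero_add] at this
        rw [this, coeff_zero_eq_eval_zero, eval_pow, ← coeff_zero_eq_eval_zero]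
      rw [h3] at h1
      have hfac : (((p - 1).factorial : ℕ) : k) ≠ 0 := by
        rw [Ne, CharP.cast_eq_zero_iff k p, (Fact.out : p.Prime).dvd_factorial]
        omega
      exact (mul_ne_zero hfac (pow_ne_zero _ hq0)) h1
    · intro i hi hi0
      rw [coeff_X_pow_mul', if_neg (by omega)]

/-- Uniform one-variable factorial statement. -/
theorem fact_main {K : Type*} [Field K] [CharZero K] (p : ℕ) [Fact p.Prime] (F : K[X])
    (hdiv : ∀ n, 1 ≤ n → n ≤ F.natDegree → n ∣ p - 1)
    (hpow : ∀ m, 1 ≤ m → m ≤ p → Lf (F ^ m) = 0) : F = 0 := by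
  by_contra hF
  obtain ⟨O, hO⟩ := exists_valuationSubring (K := K) p (Fact.out : p.Prime)
  obtain ⟨μ, F0, hμ, hF0, hres⟩ := exists_scale O F hF
  have := charP_residue p O hO
  have hd2 : F0.natDegree = F.natDegree := by
    rw [hF0, natDegree_C_mul hμ]
    exact (natDegree_map_eq_of_injective Subtype.val_injective F0).symm
  refine fact_charp p (F0.map (IsLocalRing.residue O)) hres ?_ ?_
  · intro n hn1 hn2
    apply hdiv n hn1
    have := natDegree_map_le (f := IsLocalRing.residue O) (p := F0)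
    omega
  · intro m hm1 hm2
    have h1 := hpow m hm1 hm2
    rw [hF0, mul_pow, ← C_pow, Lf_C_mul, ← Polynomial.map_pow, Lf_map] at h1
    have h2 := (mul_eq_zero.mp h1).resolve_left (pow_ne_zero _ hμ)
    have h3 : Lf (F0 ^ m) = 0 := by
      apply Subtype.ext
      exact h2
    rw [← Polynomial.map_pow, Lf_map, h3, map_zero]

end Fact

end Pool.Agent.H.MP_405479_al
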