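import Pool.Agent.H.MP_405479_al.Glue
import Pool.Agent.H.MP_405479_al.Val

set_option autoImplicit false

open Polynomial

namespace Pool.Agent.H.MP_405479_al

section Lfl

variable {L : Type*} [CommRing L]

/-- Truncated factorial functional. -/
noncomputable def Lfl (j : ℕ) : L[X] →ₗ[L] L :=
  Polynomial.lsum fun i => if j ≤ i then ((i.factorial : ℕ) : L) • LinearMap.id else 0

lemma Lfl_monomial (j i : ℕ) (z : L) :
    Lfl j (monomial i z) = if j ≤ i then ((i.factorial : ℕ) : L) * z else 0 := by
  rw [Lfl, Polynomial.lsum_apply, sum_monomial_index]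
  · split_ifs <;> simp
  · simp

lemma Lfl_zero_eq (G : L[X]) : Lfl 0 G = Lf G := by
  rw [Lfl, Polynomial.lsum_apply, Lf]
  simp

lemma Lfl_derivative (j : ℕ) (G : L[X]) :
    Lfl j (derivative G) = Lfl j G - ((j.factorial : ℕ) : L) * G.coeff j := by
  induction G using Polynomial.induction_on' with
  | add p q hp hq =>
    rw [derivative_add, map_add, map_add, hp, hq, coeff_add]
    ring
  | monomial i z =>
    rw [derivative_monomial, Lfl_monomial, Lfl_monomial, coeff_monomial]
    rcases Nat.eq_zero_or_pos i with rfl | hi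
    · rcases Nat.eq_zero_or_pos j with rfl | hj
      · simp
      · have h1 : ¬ j ≤ 0 := by omega
        have h2 : ¬ (0 = j) := by omega
        simp [h1, h2]
    · obtain ⟨k, rfl⟩ : ∃ k, i = k + 1 := ⟨i - 1, by omega⟩
      rw [Nat.add_sub_cancel]
      by_cases h1 : j ≤ k
      · have h2 : j ≤ k + 1 := by omega
        have h3 : ¬ (k + 1 = j) := by omega
        rw [if_pos h1, if_pos h2, if_neg h3, Nat.factorial_succ]
        push_cast
        ring
      · by_cases h2 : k + 1 = j
        · subst h2
          rw [if_neg h1, if_pos le_rfl, if_pos rfl]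
          ring
        · have h3 : ¬ (j ≤ k + 1) := by omega
          rw [if_neg h1, if_neg h3, if_neg h2]
          ring

lemma Lfl_mem (j : ℕ) (G : L[X]) (I : Ideal L) (hG : G ∈ Ideal.map C I) : Lfl j G ∈ I := by
  rw [Ideal.mem_map_C_iff] at hG
  rw [Lfl, Polynomial.lsum_apply, Polynomial.sum]
  refine Ideal.sum_mem _ fun i _ => ?_
  split_ifs
  · exact Ideal.mul_mem_left _ _ (hG i)
  · exact Ideal.zero_mem _

lemma Lfl_eq_sum (j : ℕ) (G : L[X]) (N : ℕ) (hN : G.natDegree < N) :
    Lfl j G = ∑ i ∈ Finset.range N, if j ≤ i then ((i.factorial : ℕ) : L) * G.coeff i else 0 := by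
  rw [Lfl, Polynomial.lsum_apply, sum_over_range' G (fun i => by simp) N hN]
  refine Finset.sum_congr rfl fun i _ => ?_
  split_ifs <;> simp

end Lfl

section Rees

variable {A L : Type*} [CommRing A] [CommRing L] [Algebra A L]

/-- The extended Rees type algebra of an `A`-submodule. -/
def ReesS (S : Submodule A L) : Subalgebra A L[X] where
  carrier := {β | ∀ k, β.coeff k ∈ S ^ k}
  mul_mem' := by
    intro β γ hβ hγ k
    rw [coeff_mul]
    refine Submodule.sum_mem _ fun x hx => ?_
    rw [Finset.HasAntidiagonal.mem_antidiagonal] at hx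
    rw [← hx, pow_add]
    exact Submodule.mul_mem_mul (hβ _) (hγ _)
  add_mem' := by
    intro β γ hβ hγ k
    rw [coeff_add]
    exact Submodule.add_mem _ (hβ _) (hγ _)
  algebraMap_mem' := by
    intro r k
    rw [Polynomial.algebraMap_apply, coeff_C]
    split_ifs with h
    · subst h
      rw [pow_zero]
      exact Submodule.algebraMap_mem r
    · exact Submodule.zero_mem _

lemma mem_ReesS (S : Submodule A L) (β : L[X]) : β ∈ ReesS S ↔ ∀ k, β.coeff k ∈ S ^ k := Iff.rfl

lemma monomial_mem_ReesS (S : Submodule A L) (k : ℕ) (z : L) (hz : z ∈ S ^ k) :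
    monomial k z ∈ ReesS S := by
  intro i
  rw [coeff_monomial]
  split_ifs with h
  · rw [← h]; exact hz
  · exact Submodule.zero_mem _

/-- Monomials in the Rees type algebra. -/
noncomputable def mon (S : Submodule A L) (k : ℕ) (z : L) (hz : z ∈ S ^ k) : ReesS S :=
  ⟨monomial k z, monomial_mem_ReesS S k z hz⟩

lemma coe_mon (S : Submodule A L) (k : ℕ) (z : L) (hz : z ∈ S ^ k) :
    ((mon S k z hz : ReesS S) : L[X]) = monomial k z := rfl

/-- The substitution `X ↦ y X` composed with the structure map. -/
noncomputable def th (A : Type*) {L : Type*} [CommRing A] [CommRing L] [Algebra A L] (y : L) :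
    A[X] →+* L[X] :=
  (Polynomial.compRingHom (C y * X)).comp (Polynomial.mapRingHom (algebraMap A L))

lemma th_apply (y : L) (q : A[X]) : th A y q = (q.map (algebraMap A L)).comp (C y * X) := rfl

lemma th_coeff (y : L) (q : A[X]) (i : ℕ) :
    (th A y q).coeff i = algebraMap A L (q.coeff i) * y ^ i := by
  rw [th_apply, comp_C_mul_X_coeff, coeff_map]

lemma th_C (y : L) (z : A) : th A y (C z) = C (algebraMap A L z) := by
  rw [th_apply, map_C, C_comp]

lemma derivative_th (y : L) (q : A[X]) :
    derivative (th A y q) = C y * th A y (derivative q) := by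
  rw [th_apply, th_apply, derivative_comp, derivative_C_mul, derivative_X, mul_one, derivative_map]

lemma nil_rel (c : A) (a h : A[X]) (xinv : L) (hx : algebraMap A L (a.coeff 0) * xinv = 1)
    (hb : ∀ j, 1 ≤ j → IsNilpotent (algebraMap A L (a.coeff j))) (j : ℕ) :
    IsNilpotent (Lfl j (th A (algebraMap A L c * xinv) (Dop c a h)) +
      algebraMap A L (a.coeff 0) * (((j.factorial : ℕ) : L) *
        (algebraMap A L (h.coeff j) * (algebraMap A L c * xinv) ^ j))) := by
  set y := algebraMap A L c * xinv with hy
  set x := algebraMap A L (a.coeff 0) with hxdef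
  have hcx : algebraMap A L c = x * y := by
    rw [hy]
    linear_combination (-algebraMap A L c) * hx
  set b := a - C (a.coeff 0) with hbdef
  have ha : a = C (a.coeff 0) + b := by rw [hbdef]; ring
  have hbth : th A y b ∈ Ideal.map C (nilradical L) := by
    rw [Ideal.mem_map_C_iff]
    intro i
    rw [th_coeff]
    refine Ideal.mul_mem_right _ _ ?_
    rw [mem_nilradical]
    rcases Nat.eq_zero_or_pos i with h0 | h0
    · subst h0
      rw [hbdef, coeff_sub, coeff_C_zero, sub_self, map_zero]
      exact IsNilpotent.zero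
    · rw [hbdef, coeff_sub, coeff_C, if_neg (by omega), sub_zero]
      exact hb i h0
  have e1 : th A y (Dop c a h) = C x * (derivative (th A y h) - th A y h) -
      th A y b * th A y h := by
    rw [Dop, map_sub, map_mul, map_mul, th_C, derivative_th, hcx, C_mul]
    conv_lhs => rw [ha, map_add, th_C]
    ring
  have e2 : Lfl j (th A y (Dop c a h)) + x * (((j.factorial : ℕ) : L) *
      (algebraMap A L (h.coeff j) * y ^ j)) = -Lfl j (th A y b * th A y h) := by
    rw [e1, map_sub, ← smul_eq_C_mul, map_smul, map_sub, Lfl_derivative, smul_eq_mul,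
      th_coeff]
    ring
  rw [e2, ← mem_nilradical]
  refine (Ideal.neg_mem_iff _).mpr (Lfl_mem _ _ _ (Ideal.mul_mem_right _ _ hbth))

end Rees

end Pool.Agent.H.MP_405479_al
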