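import Pool.Agent.H.MP_405479_al.Rees

set_option autoImplicit false

open Polynomial

universe u

namespace Pool.Agent.H.MP_405479_al

section Rees2

variable {A L : Type*} [CommRing A] [CommRing L] [Algebra A L]

/-- Generators. -/
def gens (f : A[X]) (y : L) : Set L :=
  {z | ∃ j l : ℕ, l ≤ j ∧ z = algebraMap A L (f.coeff j) * y ^ l}

/-- The span of the generators. -/
def S1 (f : A[X]) (y : L) : Submodule A L := Submodule.span A (gens f y)

/-- The span of the generators and one. -/
def SS (f : A[X]) (y : L) : Submodule A L := 1 ⊔ S1 f y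

lemma gens_mem_SS (f : A[X]) (y : L) (j l : ℕ) (h : l ≤ j) :
    algebraMap A L (f.coeff j) * y ^ l ∈ SS f y :=
  Submodule.mem_sup_right (Submodule.subset_span ⟨j, l, h, rfl⟩)

lemma gens_mem_SS_pow_one (f : A[X]) (y : L) (j l : ℕ) (h : l ≤ j) :
    algebraMap A L (f.coeff j) * y ^ l ∈ SS f y ^ 1 := by
  rw [pow_one]
  exact gens_mem_SS f y j l h

lemma one_le_SS_pow (f : A[X]) (y : L) (k : ℕ) : (1 : Submodule A L) ≤ SS f y ^ k := by
  induction k with
  | zero => rw [pow_zero]
  | succ k ih =>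
    rw [pow_succ]
    calc (1 : Submodule A L) = 1 * 1 := (mul_one _).symm
      _ ≤ SS f y ^ k * SS f y := mul_le_mul' ih le_sup_left

lemma algebraMap_mem_SS_pow (f : A[X]) (y : L) (k : ℕ) (z : A) :
    algebraMap A L z ∈ SS f y ^ k :=
  one_le_SS_pow f y k (Submodule.algebraMap_mem z)

/-- shorthand for the generator monomials -/
noncomputable def gm (f : A[X]) (y : L) (j l : ℕ) (h : l ≤ j) : ReesS (SS f y) :=
  mon (SS f y) 1 (algebraMap A L (f.coeff j) * y ^ l) (gens_mem_SS_pow_one f y j l h)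

/-- shorthand for monomials coming from the base ring -/
noncomputable def am (f : A[X]) (y : L) (k : ℕ) (z : A) : ReesS (SS f y) :=
  mon (SS f y) k (algebraMap A L z) (algebraMap_mem_SS_pow f y k z)

/-- The polynomial with coefficients the top generators. -/
noncomputable def ft (f : A[X]) (y : L) : (ReesS (SS f y))[X] :=
  ∑ j ∈ Finset.range (f.natDegree + 1), C (gm f y j j le_rfl) * X ^ j

lemma ft_coeff (f : A[X]) (y : L) (j : ℕ) :
    (ft f y).coeff j = gm f y j j le_rfl := by
  rw [ft, finsetSum_coeff]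
  simp only [coeff_C_mul, coeff_X_pow]
  by_cases hj : j < f.natDegree + 1
  · rw [Finset.sum_eq_single j]
    · rw [if_pos rfl, mul_one]
    · intro b _ hb
      rw [if_neg (Ne.symm hb), mul_zero]
    · intro h
      exact absurd (Finset.mem_range.mpr hj) h
  · rw [Finset.sum_eq_zero]
    · apply Subtype.ext
      rw [gm, coe_mon, coeff_eq_zero_of_natDegree_lt (by omega), map_zero, zero_mul,
        monomial_zero_right]
      rfl
    · intro b hb
      rw [Finset.mem_range] at hb
      rw [if_neg (by omega), mul_zero]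

lemma ft_natDegree (f : A[X]) (y : L) : (ft f y).natDegree ≤ f.natDegree := by
  rw [ft]
  refine natDegree_sum_le_of_forall_le _ _ fun j hj => ?_
  rw [Finset.mem_range] at hj
  exact (natDegree_C_mul_X_pow_le _ _).trans (by omega)

/-- The inclusion of the Rees algebra. -/
noncomputable def inc (f : A[X]) (y : L) : ReesS (SS f y) →+* L[X] :=
  (ReesS (SS f y)).val.toRingHom

lemma inc_apply (f : A[X]) (y : L) (z : ReesS (SS f y)) : inc f y z = (z : L[X]) := rfl

lemma ft_map (f : A[X]) (y : L) :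
    (ft f y).map (inc f y) = C (X : L[X]) * (th A y f).map (C : L →+* L[X]) := by
  ext1 j
  rw [coeff_map, ft_coeff, coeff_C_mul, coeff_map, th_coeff, inc_apply, gm, coe_mon,
    ← C_mul_X_eq_monomial, mul_comm]

lemma inc_Lf (f : A[X]) (y : L) (m : ℕ) :
    inc f y (Lf ((ft f y) ^ m)) = monomial m (Lfl 0 (th A y (f ^ m))) := by
  rw [← Lf_map, Polynomial.map_pow, ft_map, mul_pow, ← C_pow, Lf_C_mul, ← Polynomial.map_pow,
    Lf_map, Lfl_zero_eq, map_pow, ← C_mul_X_pow_eq_monomial, mul_comm]

lemma inc_injective (f : A[X]) (y : L) : Function.Injective (inc f y) := Subtype.val_injective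

lemma nilp_mem (f : A[X]) (y : L) (q : Ideal (ReesS (SS f y))) [q.IsPrime] (Z : ReesS (SS f y))
    (k : ℕ) (ν : L) (hν : IsNilpotent ν) (hZ : inc f y Z = monomial k ν) : Z ∈ q := by
  obtain ⟨n, hn⟩ := hν
  have h1 : Z ^ n = 0 := by
    apply inc_injective f y
    rw [map_pow, hZ, monomial_pow, hn, monomial_zero_right, map_zero]
  have h2 : Z ^ n ∈ q := by rw [h1]; exact q.zero_mem
  exact Ideal.IsPrime.mem_of_pow_mem ‹_› n h2

variable [Algebra ℚ A]

/-- A ring homomorphism with kernel a given prime ideal and values in a field of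
characteristic zero. -/
lemma exists_field_hom {R : Type u} [CommRing R] [Algebra ℚ R] (q : Ideal R) [q.IsPrime] :
    ∃ (F : Type u) (_ : Field F) (_ : CharZero F) (φ : R →+* F), ∀ z, φ z = 0 ↔ z ∈ q := by
  let φ : R →+* FractionRing (R ⧸ q) :=
    (algebraMap (R ⧸ q) (FractionRing (R ⧸ q))).comp (Ideal.Quotient.mk q)
  let : Algebra ℚ (FractionRing (R ⧸ q)) := (φ.comp (algebraMap ℚ R)).toAlgebra
  refine ⟨FractionRing (R ⧸ q), inferInstance, algebraRat.charZero _, φ, ?_⟩
  intro z
  rw [← Ideal.Quotient.eq_zero_iff_mem]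
  constructor
  · intro h
    exact (IsFractionRing.injective (R ⧸ q) (FractionRing (R ⧸ q))) (by rw [map_zero]; exact h)
  · intro h
    change algebraMap (R ⧸ q) (FractionRing (R ⧸ q)) (Ideal.Quotient.mk q z) = 0
    rw [h, map_zero]

/-- The prime-ideal statement, top generators. -/
lemma prime_top (p : ℕ) [Fact p.Prime] (c : A) (a f : A[X]) (xinv y : L)
    (hy : y = algebraMap A L c * xinv)
    (hx : algebraMap A L (a.coeff 0) * xinv = 1)
    (hb : ∀ j, 1 ≤ j → IsNilpotent (algebraMap A L (a.coeff j)))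
    (hdiv : ∀ n, 1 ≤ n → n ≤ f.natDegree → n ∣ p - 1)
    (hpow : ∀ m, 1 ≤ m → m ≤ p → ∃ h, Dop c a h = f ^ m)
    (q : Ideal (ReesS (SS f y))) [q.IsPrime]
    (hq : am f y 1 (a.coeff 0) ∈ q) (j : ℕ) :
    gm f y j j le_rfl ∈ q := by
  let : Algebra ℚ (ReesS (SS f y)) :=
    ((algebraMap A (ReesS (SS f y))).comp (algebraMap ℚ A)).toAlgebra
  obtain ⟨F, _, _, φ, hφ⟩ := exists_field_hom q
  have hF : (ft f y).map φ = 0 := by
    apply fact_main p
    · intro n hn1 hn2
      apply hdiv n hn1
      exact hn2.trans (natDegree_map_le.trans (ft_natDegree f y))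
    · intro m hm1 hm2
      obtain ⟨h, hh⟩ := hpow m hm1 hm2
      rw [← Polynomial.map_pow, Lf_map, hφ]
      have hnil := nil_rel (L := L) c a h xinv hx hb 0
      rw [← hy, hh, Nat.factorial_zero, Nat.cast_one, one_mul, pow_zero, mul_one] at hnil
      have hZ : Lf ((ft f y) ^ m) + am f y 1 (a.coeff 0) * am f y (m - 1) (h.coeff 0) ∈ q := by
        refine nilp_mem f y q _ m _ hnil ?_
        have hm : 1 + (m - 1) = m := by omega
        rw [map_add, inc_Lf, map_mul, am, am, inc_apply, inc_apply, coe_mon, coe_mon,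
          monomial_mul_monomial, map_add, hm]
      have h2 : am f y 1 (a.coeff 0) * am f y (m - 1) (h.coeff 0) ∈ q :=
        Ideal.mul_mem_right _ _ hq
      have h3 := Ideal.sub_mem _ hZ h2
      rwa [add_sub_cancel_right] at h3
  rw [← hφ, ← ft_coeff, ← coeff_map, hF, coeff_zero]

omit [Algebra ℚ A] in
lemma prime_pos (f : A[X]) (y : L) (q : Ideal (ReesS (SS f y))) [q.IsPrime]
    (htop : ∀ j, gm f y j j le_rfl ∈ q) (j l : ℕ) (hl : l ≤ j) (h1 : 1 ≤ l) :
    gm f y j l hl ∈ q := by
  have e : gm f y j l hl ^ j = gm f y j 0 (Nat.zero_le _) ^ (j - l) * gm f y j j le_rfl ^ l := by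
    apply inc_injective
    rw [map_mul, map_pow, map_pow, map_pow]
    simp only [inc_apply, gm, coe_mon, monomial_pow, monomial_mul_monomial]
    have e1 : 1 * j = 1 * (j - l) + 1 * l := by omega
    have e2 : (algebraMap A L (f.coeff j) * y ^ l) ^ j =
        (algebraMap A L (f.coeff j) * y ^ 0) ^ (j - l) * (algebraMap A L (f.coeff j) * y ^ j) ^ l := by
      calc (algebraMap A L (f.coeff j) * y ^ l) ^ j
          = (algebraMap A L (f.coeff j)) ^ (j - l + l) * y ^ (l * j) := by
            rw [Nat.sub_add_cancel hl, mul_pow, ← pow_mul]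
        _ = _ := by rw [pow_add, pow_zero, mul_one, mul_pow, ← pow_mul, mul_comm l j, mul_assoc]
    rw [e1, e2]
  apply Ideal.IsPrime.mem_of_pow_mem ‹_› j
  rw [e]
  exact Ideal.mul_mem_left _ _ (Ideal.pow_mem_of_mem _ (htop j) l (by omega))

/-- The prime-ideal statement, all generators. -/
lemma prime_all (p : ℕ) [Fact p.Prime] (c : A) (a f : A[X]) (xinv y yinv : L)
    (hy : y = algebraMap A L c * xinv) (hyinv : y * yinv = 1)
    (hx : algebraMap A L (a.coeff 0) * xinv = 1)
    (hb : ∀ j, 1 ≤ j → IsNilpotent (algebraMap A L (a.coeff j)))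
    (hdiv : ∀ n, 1 ≤ n → n ≤ f.natDegree → n ∣ p - 1)
    (hpow : ∀ m, 1 ≤ m → m ≤ p → ∃ h, Dop c a h = f ^ m)
    (q : Ideal (ReesS (SS f y))) [q.IsPrime]
    (hq : am f y 1 (a.coeff 0) ∈ q) (j l : ℕ) (hl : l ≤ j) :
    gm f y j l hl ∈ q := by
  have htop := prime_top p c a f xinv y hy hx hb hdiv hpow q hq
  have hpos : ∀ j l : ℕ, ∀ hl : l ≤ j, 1 ≤ l → gm f y j l hl ∈ q := prime_pos f y q htop
  rcases Nat.eq_zero_or_pos l with h0 | h0
  swap
  · exact hpos j l hl h0
  subst h0
  by_cases hj : f.natDegree < j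
  · have : gm f y j 0 hl = 0 := by
      apply inc_injective
      rw [inc_apply, gm, coe_mon, coeff_eq_zero_of_natDegree_lt hj, map_zero, zero_mul,
        monomial_zero_right, map_zero]
    rw [this]
    exact q.zero_mem
  rw [not_lt] at hj
  obtain ⟨h, hh⟩ := hpow 1 le_rfl (Fact.out : p.Prime).one_lt.le
  rw [pow_one] at hh
  have hnil := nil_rel (L := L) c a h xinv hx hb j
  rw [hh, ← hy] at hnil
  have hyj : ∀ i, j ≤ i → y ^ i * yinv ^ j = y ^ (i - j) := by
    intro i hi
    obtain ⟨k, rfl⟩ := Nat.exists_eq_add_of_le hi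
    rw [Nat.add_sub_cancel_left, pow_add]
    calc y ^ j * y ^ k * yinv ^ j = y ^ k * (y * yinv) ^ j := by rw [mul_pow]; ring
      _ = y ^ k := by rw [hyinv, one_pow, mul_one]
  have hnil2 : IsNilpotent ((Lfl j (th A y f) + algebraMap A L (a.coeff 0) *
      (((j.factorial : ℕ) : L) * (algebraMap A L (h.coeff j) * y ^ j))) * yinv ^ j) :=
    (Commute.all _ _).isNilpotent_mul_right hnil
  have hsum : (Lfl j (th A y f) + algebraMap A L (a.coeff 0) *
      (((j.factorial : ℕ) : L) * (algebraMap A L (h.coeff j) * y ^ j))) * yinv ^ j =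
      (∑ i ∈ Finset.range (f.natDegree + 1),
        if j ≤ i then ((i.factorial : ℕ) : L) * (algebraMap A L (f.coeff i) * y ^ (i - j)) else 0)
        + algebraMap A L (a.coeff 0) * (((j.factorial : ℕ) : L) * algebraMap A L (h.coeff j)) := by
    have hd : (th A y f).natDegree < f.natDegree + 1 := by
      rw [Nat.lt_succ_iff, natDegree_le_iff_coeff_eq_zero]
      intro N hN
      rw [th_coeff, coeff_eq_zero_of_natDegree_lt hN, map_zero, zero_mul]
    rw [Lfl_eq_sum j _ _ hd, add_mul, Finset.sum_mul]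
    congr 1
    · refine Finset.sum_congr rfl fun i _ => ?_
      split_ifs with hi
      · rw [th_coeff, mul_assoc, mul_assoc, hyj i hi]
      · rw [zero_mul]
    · have := hyj j le_rfl
      rw [Nat.sub_self, pow_zero] at this
      linear_combination (algebraMap A L (a.coeff 0) * (((j.factorial : ℕ) : L) *
        algebraMap A L (h.coeff j))) * this
  rw [hsum] at hnil2
  have hZ : ((∑ i ∈ Finset.range (f.natDegree + 1),
      if hi : j ≤ i then ((i.factorial : ℕ) : ReesS (SS f y)) * gm f y i (i - j) (Nat.sub_le _ _)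
      else 0) + am f y 1 (a.coeff 0) * (((j.factorial : ℕ) : ReesS (SS f y)) *
        am f y 0 (h.coeff j))) ∈ q := by
    refine nilp_mem f y q _ 1 _ hnil2 ?_
    rw [map_add, map_add, map_sum, map_sum]
    congr 1
    · refine Finset.sum_congr rfl fun i _ => ?_
      split_ifs with hi
      · rw [map_mul, map_natCast, gm, inc_apply, coe_mon, ← C_eq_natCast, C_mul_monomial]
      · rw [map_zero, monomial_zero_right]
    · rw [map_mul, map_mul, map_natCast, am, am, inc_apply, inc_apply, coe_mon, coe_mon,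
        ← C_eq_natCast, C_mul_monomial, monomial_mul_monomial]
  have h2 : am f y 1 (a.coeff 0) * (((j.factorial : ℕ) : ReesS (SS f y)) *
        am f y 0 (h.coeff j)) ∈ q := Ideal.mul_mem_right _ _ hq
  have h3 := (Ideal.add_mem_iff_left _ h2).mp hZ
  rw [← Finset.add_sum_erase _ _ (Finset.mem_range.mpr (Nat.lt_succ_of_le hj))] at h3
  have h4 : (∑ i ∈ (Finset.range (f.natDegree + 1)).erase j,
      if hi : j ≤ i then ((i.factorial : ℕ) : ReesS (SS f y)) * gm f y i (i - j) (Nat.sub_le _ _)
      else 0) ∈ q := by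
    refine Ideal.sum_mem _ fun i hi => ?_
    rw [Finset.mem_erase] at hi
    split_ifs with hji
    · exact Ideal.mul_mem_left _ _ (hpos i (i - j) _ (by omega))
    · exact q.zero_mem
  have h5 := (Ideal.add_mem_iff_left _ h4).mp h3
  rw [dif_pos le_rfl] at h5
  have h6 : gm f y j 0 hl = gm f y j (j - j) (Nat.sub_le _ _) := by
    apply inc_injective
    rw [inc_apply, inc_apply, gm, gm, coe_mon, coe_mon, Nat.sub_self]
  rw [h6]
  have hu : IsUnit ((j.factorial : ℕ) : ReesS (SS f y)) := by
    have h7 : ((j.factorial : ℕ) : ReesS (SS f y)) =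
        algebraMap A (ReesS (SS f y)) (algebraMap ℚ A (j.factorial : ℚ)) := by
      rw [map_natCast, map_natCast]
    rw [h7]
    exact (((IsUnit.mk0 _ (by exact_mod_cast j.factorial_ne_zero)).map (algebraMap ℚ A)).map
      (algebraMap A (ReesS (SS f y))))
  exact (Ideal.unit_mul_mem_iff_mem q hu).mp h5

end Rees2

end Pool.Agent.H.MP_405479_al
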