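import Pool.Agent.H.MP_405479_al.Rees2

set_option autoImplicit false

open Polynomial Pointwise

namespace Pool.Agent.H.MP_405479_al

section Rees3

variable {A L : Type*} [CommRing A] [CommRing L] [Algebra A L]

lemma gens_finite (f : A[X]) (y : L) : (gens f y).Finite := by
  have h1 : gens f y ⊆ insert 0 ((fun q : ℕ × ℕ => algebraMap A L (f.coeff q.1) * y ^ q.2) ''
      ((Finset.range (f.natDegree + 1) ×ˢ Finset.range (f.natDegree + 1) : Finset (ℕ × ℕ)) :
        Set (ℕ × ℕ))) := by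
    rintro z ⟨j, l, hl, rfl⟩
    by_cases hj : j < f.natDegree + 1
    · refine Set.mem_insert_of_mem _ ⟨(j, l), ?_, rfl⟩
      rw [Finset.mem_coe, Finset.mem_product, Finset.mem_range, Finset.mem_range]
      exact ⟨hj, by omega⟩
    · rw [coeff_eq_zero_of_natDegree_lt (by omega), map_zero, zero_mul]
      exact Set.mem_insert _ _
  refine Set.Finite.subset ?_ h1
  exact (Set.Finite.image _ (Finset.finite_toSet _)).insert 0

/-- The set of generator monomials in the Rees algebra. -/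
def GM (f : A[X]) (y : L) : Set (ReesS (SS f y)) :=
  {β | ∃ j l, ∃ hl : l ≤ j, β = gm f y j l hl}

lemma GM_finite (f : A[X]) (y : L) : (GM f y).Finite := by
  have h1 : GM f y ⊆ (fun β : ReesS (SS f y) => (β : L[X])) ⁻¹'
      ((fun z : L => monomial 1 z) '' gens f y) := by
    rintro β ⟨j, l, hl, rfl⟩
    exact ⟨_, ⟨j, l, hl, rfl⟩, rfl⟩
  refine Set.Finite.subset ?_ h1
  exact ((gens_finite f y).image _).preimage Subtype.val_injective.injOn

/-- Products of `n` generators give elements of the `n`-th power of the ideal of generators. -/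
lemma pow_gens (f : A[X]) (y : L) (n : ℕ) : ∀ z ∈ gens f y ^ n,
    ∃ β ∈ (Ideal.span (GM f y)) ^ n, (β : L[X]) = monomial n z := by
  induction n with
  | zero =>
    intro z hz
    rw [pow_zero, Set.mem_one] at hz
    subst hz
    exact ⟨1, by rw [pow_zero, Ideal.one_eq_top]; exact Submodule.mem_top, rfl⟩
  | succ n ih =>
    intro z hz
    rw [pow_succ, Set.mem_mul] at hz
    obtain ⟨z1, hz1, z2, ⟨j, l, hl, rfl⟩, rfl⟩ := hz
    obtain ⟨β, hβ, hβ'⟩ := ih z1 hz1
    refine ⟨β * gm f y j l hl, ?_, ?_⟩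
    · rw [pow_succ]
      exact Ideal.mul_mem_mul hβ (Ideal.subset_span ⟨j, l, hl, rfl⟩)
    · have : ((β * gm f y j l hl : ReesS (SS f y)) : L[X]) =
          (β : L[X]) * ((gm f y j l hl : ReesS (SS f y)) : L[X]) := rfl
      rw [this, hβ', gm, coe_mon, monomial_mul_monomial]

/-- The key integrality statement. -/
theorem key_integral [Algebra ℚ A] (p : ℕ) [Fact p.Prime] (c : A) (a f : A[X]) (xinv y yinv : L)
    (hy : y = algebraMap A L c * xinv) (hyinv : y * yinv = 1)
    (hx : algebraMap A L (a.coeff 0) * xinv = 1)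
    (hb : ∀ j, 1 ≤ j → IsNilpotent (algebraMap A L (a.coeff j)))
    (hdiv : ∀ n, 1 ≤ n → n ≤ f.natDegree → n ∣ p - 1)
    (hpow : ∀ m, 1 ≤ m → m ≤ p → ∃ h, Dop c a h = f ^ m) :
    ∃ n, S1 f y ^ (n + 1) ≤ Submodule.span A {algebraMap A L (a.coeff 0)} * SS f y ^ n := by
  have hrad : Ideal.span (GM f y) ≤ (Ideal.span {am f y 1 (a.coeff 0)}).radical := by
    rw [Ideal.span_le]
    rintro β ⟨j, l, hl, rfl⟩
    rw [SetLike.mem_coe, Ideal.radical_eq_sInf, Submodule.mem_sInf]
    rintro q ⟨hq, hprime⟩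
    have : Ideal.IsPrime q := hprime
    exact prime_all p c a f xinv y yinv hy hyinv hx hb hdiv hpow q
      (hq (Ideal.mem_span_singleton_self _)) j l hl
  have hfg : (Ideal.span (GM f y)).FG := Submodule.fg_span (GM_finite f y)
  obtain ⟨n, hn⟩ := Ideal.exists_pow_le_of_le_radical_of_fg hrad hfg
  refine ⟨n, ?_⟩
  rw [S1, Submodule.span_pow, Submodule.span_le]
  intro z hz
  obtain ⟨β, hβ, hβ'⟩ := pow_gens f y (n + 1) z hz
  have h1 : β ∈ Ideal.span {am f y 1 (a.coeff 0)} := hn (Ideal.pow_le_pow_right (Nat.le_succ n) hβ)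
  rw [Ideal.mem_span_singleton] at h1
  obtain ⟨γ, hγ⟩ := h1
  have h2 : (monomial (n + 1) z : L[X]) =
      monomial 1 (algebraMap A L (a.coeff 0)) * (γ : L[X]) := by
    rw [← hβ', hγ]
    rfl
  have h3 : z = algebraMap A L (a.coeff 0) * (γ : L[X]).coeff n := by
    have h4 : (monomial (n + 1) z : L[X]).coeff (n + 1) =
        (monomial 1 (algebraMap A L (a.coeff 0)) * (γ : L[X])).coeff (n + 1) := by rw [h2]
    rw [coeff_monomial, if_pos rfl, ← C_mul_X_eq_monomial, mul_assoc, coeff_C_mul,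
      coeff_X_mul] at h4
    exact h4
  rw [SetLike.mem_coe, h3]
  exact Submodule.mul_mem_mul (Submodule.mem_span_singleton_self _) (γ.2 n)

end Rees3

section Powers

variable {A L : Type*} [CommRing A] [CommRing L] [Algebra A L]

lemma sub_pow_mono {M : Submodule A L} (h : 1 ≤ M) {i j : ℕ} (hij : i ≤ j) : M ^ i ≤ M ^ j := by
  induction j, hij using Nat.le_induction with
  | base => exact le_rfl
  | succ j _ ih =>
    calc M ^ i ≤ M ^ j := ih
      _ = M ^ j * 1 := (mul_one _).symm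
      _ ≤ M ^ j * M := mul_le_mul' le_rfl h
      _ = M ^ (j + 1) := (pow_succ _ _).symm

lemma sub_pow_le_one {M : Submodule A L} (h : M ≤ 1) (j : ℕ) : M ^ j ≤ 1 := by
  induction j with
  | zero => rw [pow_zero]
  | succ j ih =>
    calc M ^ (j + 1) = M ^ j * M := pow_succ _ _
      _ ≤ 1 * 1 := mul_le_mul' ih h
      _ = 1 := mul_one _

lemma SS_pow_succ (f : A[X]) (y : L) (n : ℕ) :
    SS f y ^ (n + 1) ≤ SS f y ^ n ⊔ S1 f y ^ (n + 1) := by
  induction n with
  | zero =>
    rw [zero_add, pow_one, pow_zero, pow_one, SS]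
  | succ n ih =>
    have h1 : SS f y ^ (n + 1) * S1 f y ≤ SS f y ^ (n + 1) ⊔ S1 f y ^ (n + 1 + 1) := by
      calc SS f y ^ (n + 1) * S1 f y ≤ (SS f y ^ n ⊔ S1 f y ^ (n + 1)) * S1 f y :=
            mul_le_mul' ih le_rfl
        _ = SS f y ^ n * S1 f y ⊔ S1 f y ^ (n + 1) * S1 f y := Submodule.sup_mul _ _ _
        _ ≤ SS f y ^ (n + 1) ⊔ S1 f y ^ (n + 1 + 1) := by
            rw [pow_succ (SS f y) n, pow_succ (S1 f y) (n + 1)]
            exact sup_le_sup (mul_le_mul' le_rfl le_sup_right) le_rfl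
    calc SS f y ^ (n + 1 + 1) = SS f y ^ (n + 1) * SS f y := pow_succ _ _
      _ = SS f y ^ (n + 1) * (1 ⊔ S1 f y) := rfl
      _ = SS f y ^ (n + 1) * 1 ⊔ SS f y ^ (n + 1) * S1 f y := Submodule.mul_sup _ _ _
      _ ≤ SS f y ^ (n + 1) ⊔ S1 f y ^ (n + 1 + 1) := by
          rw [mul_one]
          exact sup_le le_sup_left h1

/-- The consequence used later: high powers of `S1` are divisible by `x`. -/
theorem S1_pow_le (f : A[X]) (c : A) (x : A) (xinv y : L)
    (hy : y = algebraMap A L c * xinv) (hx : algebraMap A L x * xinv = 1) (n : ℕ)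
    (hn : S1 f y ^ (n + 1) ≤ Submodule.span A {algebraMap A L x} * SS f y ^ n) (K : ℕ) :
    ∃ M, ∀ m, M ≤ m → S1 f y ^ m ≤ Submodule.span A {algebraMap A L x} ^ K := by
  set X1 : Submodule A L := Submodule.span A {algebraMap A L x} with hX1
  set Xi : Submodule A L := Submodule.span A {xinv} with hXi
  have hXX : X1 * Xi = 1 := by
    rw [hX1, hXi, Submodule.span_mul_span, Set.singleton_mul_singleton, hx,
      Submodule.one_eq_span]
  have hX1le : X1 ≤ 1 := by
    rw [hX1, Submodule.span_singleton_le_iff_mem]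
    exact Submodule.algebraMap_mem x
  have hXi1 : 1 ≤ Xi := by
    rw [Submodule.one_le, hXi, Submodule.mem_span_singleton]
    exact ⟨x, by rw [Algebra.smul_def, hx]⟩
  have hSS1 : (1 : Submodule A L) ≤ SS f y := le_sup_left
  -- absorbing
  have habs : SS f y ^ n * SS f y ≤ SS f y ^ n := by
    rw [← pow_succ]
    refine (SS_pow_succ f y n).trans (sup_le le_rfl (hn.trans ?_))
    calc X1 * SS f y ^ n ≤ 1 * SS f y ^ n := mul_le_mul' hX1le le_rfl
      _ = SS f y ^ n := one_mul _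
  have habs2 : ∀ k, SS f y ^ n * SS f y ^ k ≤ SS f y ^ n := by
    intro k
    induction k with
    | zero => rw [pow_zero, mul_one]
    | succ k ih =>
      calc SS f y ^ n * SS f y ^ (k + 1) = (SS f y ^ n * SS f y ^ k) * SS f y := by
            rw [pow_succ, mul_assoc]
        _ ≤ SS f y ^ n * SS f y := mul_le_mul' ih le_rfl
        _ ≤ SS f y ^ n := habs
  have hiter : ∀ l, S1 f y ^ ((n + 1) * l) ≤ X1 ^ l * SS f y ^ n := by
    intro l
    induction l with
    | zero =>
      rw [mul_zero, pow_zero, pow_zero, one_mul]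
      exact one_le_SS_pow f y n
    | succ l ih =>
      calc S1 f y ^ ((n + 1) * (l + 1)) = S1 f y ^ (n + 1) * S1 f y ^ ((n + 1) * l) := by
            rw [← pow_add]; congr 1; ring
        _ ≤ (X1 * SS f y ^ n) * (X1 ^ l * SS f y ^ n) := mul_le_mul' hn ih
        _ = X1 ^ (l + 1) * (SS f y ^ n * SS f y ^ n) := by ring
        _ ≤ X1 ^ (l + 1) * SS f y ^ n := mul_le_mul' le_rfl (habs2 n)
  -- bounded denominators
  have hSSXi : SS f y ≤ Xi ^ f.natDegree := by
    rw [SS]
    refine sup_le ?_ ?_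
    · have := sub_pow_mono hXi1 (Nat.zero_le f.natDegree)
      rwa [pow_zero] at this
    · rw [S1, Submodule.span_le]
      rintro z ⟨j, l, hl, rfl⟩
      rw [SetLike.mem_coe]
      by_cases hj : f.natDegree < j
      · rw [coeff_eq_zero_of_natDegree_lt hj, map_zero, zero_mul]
        exact Submodule.zero_mem _
      · have h1 : algebraMap A L (f.coeff j) * y ^ l = (f.coeff j * c ^ l) • xinv ^ l := by
          rw [hy, Algebra.smul_def, map_mul, map_pow]
          ring
        rw [h1]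
        refine Submodule.smul_mem _ _ (sub_pow_mono hXi1 (by omega : l ≤ f.natDegree) ?_)
        exact Submodule.pow_mem_pow _ (Submodule.mem_span_singleton_self _) l
  set e := f.natDegree * n with he
  have hE : SS f y ^ n ≤ Xi ^ e := by
    rw [he, pow_mul]
    exact pow_le_pow_left' hSSXi n
  refine ⟨(n + 1) * (K + e), fun m hm => ?_⟩
  obtain ⟨r, rfl⟩ := Nat.exists_eq_add_of_le hm
  calc S1 f y ^ ((n + 1) * (K + e) + r) = S1 f y ^ ((n + 1) * (K + e)) * S1 f y ^ r :=
        pow_add _ _ _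
    _ ≤ (X1 ^ (K + e) * SS f y ^ n) * SS f y ^ r :=
        mul_le_mul' (hiter _) (pow_le_pow_left' le_sup_right r)
    _ = X1 ^ (K + e) * (SS f y ^ n * SS f y ^ r) := mul_assoc _ _ _
    _ ≤ X1 ^ (K + e) * SS f y ^ n := mul_le_mul' le_rfl (habs2 r)
    _ ≤ X1 ^ (K + e) * Xi ^ e := mul_le_mul' le_rfl hE
    _ = X1 ^ K * (X1 * Xi) ^ e := by rw [pow_add, mul_assoc, ← mul_pow]
    _ = X1 ^ K := by rw [hXX, one_pow, mul_one]

end Powers

end Pool.Agent.H.MP_405479_al
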