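import Pool.Agent.H.MP_405479_al.Rees3

set_option autoImplicit false

open Polynomial

namespace Pool.Agent.H.MP_405479_al

section WF

variable {A L : Type*} [CommRing A] [CommRing L] [Algebra A L]

/-- Weighted condition on coefficients. -/
def WF (y : L) (M : Submodule A L) (w : L[X]) : Prop := ∀ i l, l ≤ i → y ^ l * w.coeff i ∈ M

lemma WF.mono {y : L} {M N : Submodule A L} {w : L[X]} (h : WF y M w) (hMN : M ≤ N) :
    WF y N w := fun i l hl => hMN (h i l hl)

lemma WF.add {y : L} {M : Submodule A L} {w v : L[X]} (hw : WF y M w) (hv : WF y M v) :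
    WF y M (w + v) := by
  intro i l hl
  rw [coeff_add, mul_add]
  exact M.add_mem (hw i l hl) (hv i l hl)

lemma WF.zero {y : L} {M : Submodule A L} : WF y M 0 := by
  intro i l _
  rw [coeff_zero, mul_zero]
  exact M.zero_mem

lemma WF.mul {y : L} {M N : Submodule A L} {w v : L[X]} (hw : WF y M w) (hv : WF y N v) :
    WF y (M * N) (w * v) := by
  intro i l hl
  rw [coeff_mul, Finset.mul_sum]
  refine Submodule.sum_mem _ fun x hx => ?_
  rw [Finset.HasAntidiagonal.mem_antidiagonal] at hx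
  have h1 : l = min l x.1 + (l - min l x.1) := by omega
  have h2 : y ^ l * (w.coeff x.1 * v.coeff x.2) =
      (y ^ (min l x.1) * w.coeff x.1) * (y ^ (l - min l x.1) * v.coeff x.2) := by
    conv_lhs => rw [h1, pow_add]
    ring
  rw [h2]
  exact Submodule.mul_mem_mul (hw _ _ (min_le_right _ _)) (hv _ _ (by omega))

lemma WF.pow {y : L} {M : Submodule A L} {w : L[X]} (hw : WF y M w) (m : ℕ) :
    WF y (M ^ m) (w ^ m) := by
  induction m with
  | zero =>
    intro i l hl
    rw [pow_zero, pow_zero, coeff_one]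
    split_ifs with h
    · have hl0 : l = 0 := by omega
      rw [hl0, pow_zero, one_mul]
      exact Submodule.one_le.mp le_rfl
    · rw [mul_zero]
      exact Submodule.zero_mem _
  | succ m ih =>
    rw [pow_succ, pow_succ]
    exact ih.mul hw

lemma WF_f (f : A[X]) (y : L) : WF y (S1 f y) (f.map (algebraMap A L)) := by
  intro i l hl
  rw [coeff_map, mul_comm]
  exact Submodule.subset_span ⟨i, l, hl, rfl⟩

variable (c x : A) (xinv y : L)

lemma one_le_Xi (hx : algebraMap A L x * xinv = 1) : (1 : Submodule A L) ≤ Submodule.span A {xinv} := by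
  rw [Submodule.one_le, Submodule.mem_span_singleton]
  exact ⟨x, by rw [Algebra.smul_def, hx]⟩

lemma WF_map (hy : y = algebraMap A L c * xinv) (hx : algebraMap A L x * xinv = 1)
    (q : A[X]) (d : ℕ) (hd : q.natDegree ≤ d) :
    WF y (Submodule.span A {xinv} ^ d) (q.map (algebraMap A L)) := by
  intro i l hl
  rw [coeff_map]
  by_cases hi : q.natDegree < i
  · rw [coeff_eq_zero_of_natDegree_lt hi, map_zero, mul_zero]
    exact Submodule.zero_mem _
  · have h1 : y ^ l * algebraMap A L (q.coeff i) = (q.coeff i * c ^ l) • xinv ^ l := by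
      rw [hy, Algebra.smul_def, map_mul, map_pow]
      ring
    rw [h1]
    refine Submodule.smul_mem _ _ (sub_pow_mono (one_le_Xi x xinv hx) (by omega : l ≤ d) ?_)
    exact Submodule.pow_mem_pow _ (Submodule.mem_span_singleton_self _) l

lemma solve0 (hy : y = algebraMap A L c * xinv) (hx : algebraMap A L x * xinv = 1)
    (N : ℕ) : ∀ (M : Submodule A L) (I : Ideal L) (w : L[X]), (∀ i, N ≤ i → w.coeff i = 0) →
      WF y M w → w ∈ Ideal.map C I → ∃ u : L[X], WF y (Submodule.span A {xinv} * M) u ∧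
        u ∈ Ideal.map C I ∧
        C (algebraMap A L c) * derivative u - C (algebraMap A L x) * u = w := by
  induction N with
  | zero =>
    intro M I w hw _ _
    have : w = 0 := by
      ext i
      rw [hw i (Nat.zero_le _), coeff_zero]
    exact ⟨0, WF.zero, Ideal.zero_mem _, by rw [this, derivative_zero]; ring⟩
  | succ N ih =>
    intro M I w hw hM hI
    have h1 : ∀ i, N ≤ i → (C y * derivative w).coeff i = 0 := by
      intro i hi
      rw [coeff_C_mul, coeff_derivative, hw (i + 1) (by omega), zero_mul, mul_zero]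
    have h2 : WF y M (C y * derivative w) := by
      intro i l hl
      have e : y ^ l * (C y * derivative w).coeff i =
          (i + 1) • (y ^ (l + 1) * w.coeff (i + 1)) := by
        rw [coeff_C_mul, coeff_derivative, nsmul_eq_mul]
        push_cast
        ring
      rw [e]
      exact Submodule.smul_of_tower_mem _ _ (hM (i + 1) (l + 1) (by omega))
    have h3 : C y * derivative w ∈ Ideal.map C I := by
      refine Ideal.mul_mem_left _ _ ?_
      rw [Ideal.mem_map_C_iff] at hI ⊢
      intro i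
      rw [coeff_derivative]
      exact Ideal.mul_mem_right _ _ (hI _)
    obtain ⟨u', hu1, hu2, hu3⟩ := ih M I _ h1 h2 h3
    refine ⟨C (-xinv) * w + u', WF.add ?_ hu1, Ideal.add_mem _ (Ideal.mul_mem_left _ _ hI) hu2, ?_⟩
    · intro i l hl
      have e : y ^ l * (C (-xinv) * w).coeff i = (-xinv) * (y ^ l * w.coeff i) := by
        rw [coeff_C_mul]; ring
      rw [e]
      exact Submodule.mul_mem_mul (Submodule.neg_mem _ (Submodule.mem_span_singleton_self _))
        (hM i l hl)
    · have hx' : (C (algebraMap A L x) * C xinv : L[X]) = 1 := by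
        rw [← C_mul, hx, C_1]
      have hy' : (C y : L[X]) = C (algebraMap A L c) * C xinv := by
        rw [hy, C_mul]
      rw [derivative_add, derivative_C_mul, C_neg]
      linear_combination hu3 + w * hx' + derivative w * hy'

lemma solveD (a : A[X]) (hx : algebraMap A L (a.coeff 0) * xinv = 1)
    (hy : y = algebraMap A L c * xinv) (I : Ideal L) (n : ℕ) (hI : I ^ n = ⊥)
    (hbI : (a - C (a.coeff 0)).map (algebraMap A L) ∈ Ideal.map C I) (k : ℕ) :
    k ≤ n → ∀ (M : Submodule A L) (w : L[X]), WF y M w → w ∈ Ideal.map C (I ^ (n - k)) →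
      ∃ u : L[X], WF y (Submodule.span A {xinv} ^ ((a.natDegree + 1) * k) * M) u ∧
        Dop (algebraMap A L c) (a.map (algebraMap A L)) u = w := by
  induction k with
  | zero =>
    intro _ M w _ hw
    rw [Nat.sub_zero, hI, Ideal.map_bot, Ideal.mem_bot] at hw
    exact ⟨0, WF.zero, by rw [hw, Dop_zero]⟩
  | succ k ih =>
    intro hk M w hM hw
    obtain ⟨u1, h1, h2, h3⟩ := solve0 c (a.coeff 0) xinv y hy hx (w.natDegree + 1) M _ w
      (fun i hi => coeff_eq_zero_of_natDegree_lt (by omega)) hM hw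
    set b := a - C (a.coeff 0) with hb
    have hbdeg : b.natDegree ≤ a.natDegree := by
      rw [hb]
      exact (natDegree_sub_C).le
    have h4 : WF y (Submodule.span A {xinv} ^ a.natDegree * (Submodule.span A {xinv} * M))
        (b.map (algebraMap A L) * u1) :=
      (WF_map c (a.coeff 0) xinv y hy hx b _ hbdeg).mul h1
    have h5 : b.map (algebraMap A L) * u1 ∈ Ideal.map C (I ^ (n - k)) := by
      have e : n - k = (n - (k + 1)) + 1 := by omega
      rw [e, pow_succ', Ideal.map_mul]
      exact Ideal.mul_mem_mul hbI h2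
    obtain ⟨u2, h6, h7⟩ := ih (by omega) _ _ h4 h5
    refine ⟨u1 + u2, WF.add ?_ ?_, ?_⟩
    · refine h1.mono (mul_le_mul' ?_ le_rfl)
      have := sub_pow_mono (one_le_Xi (a.coeff 0) xinv hx)
        (show 1 ≤ (a.natDegree + 1) * (k + 1) from Nat.succ_le_of_lt (by positivity))
      rwa [pow_one] at this
    · refine h6.mono (le_of_eq ?_)
      rw [← mul_assoc, ← mul_assoc, ← pow_add, ← pow_succ]
      congr 2
    · rw [Dop_add, h7]
      have e : a.map (algebraMap A L) = C (algebraMap A L (a.coeff 0)) + b.map (algebraMap A L) := by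
        rw [hb, Polynomial.map_sub, map_C]; ring
      rw [Dop, e]
      linear_combination h3

end WF

section Primary

variable {A : Type*} [CommRing A] [Algebra ℚ A] [IsNoetherianRing A]

/-- Strong form for primary ideals of the third type. -/
theorem strong_type_three (p : ℕ) [Fact p.Prime] (c : A) (a f : A[X]) (Q : Ideal A)
    (hQ : Q.IsPrimary) (hc : c ∉ Q.radical) (ha0 : a.coeff 0 ∉ Q.radical)
    (ha : ∀ j, 1 ≤ j → a.coeff j ∈ Q.radical)
    (hdiv : ∀ n, 1 ≤ n → n ≤ f.natDegree → n ∣ p - 1)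
    (hpow : ∀ m, 1 ≤ m → m ≤ p → ∃ h, Dop c a h = f ^ m) : Strong c a f Q := by
  set B := A ⧸ Q with hB
  set L := FractionRing B with hL
  set ψ := algebraMap A L with hψ
  have hψ' : ∀ z : A, ψ z = algebraMap B L (Ideal.Quotient.mk Q z) := fun z => rfl
  have hker : ∀ z : A, ψ z = 0 ↔ z ∈ Q := by
    intro z
    rw [hψ', ← Ideal.Quotient.eq_zero_iff_mem]
    constructor
    · intro h
      exact (IsFractionRing.injective B L) (by rw [map_zero]; exact h)
    · intro h
      rw [h, map_zero]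
  have hunit : ∀ z : A, z ∉ Q.radical → IsUnit (ψ z) := by
    intro z hz
    rw [hψ']
    refine IsLocalization.map_units L (⟨Ideal.Quotient.mk Q z, ?_⟩ : nonZeroDivisors B)
    rw [mem_nonZeroDivisors_iff_right]
    intro w hw
    obtain ⟨w, rfl⟩ := Ideal.Quotient.mk_surjective w
    rw [← map_mul, Ideal.Quotient.eq_zero_iff_mem] at hw
    rw [Ideal.Quotient.eq_zero_iff_mem]
    exact ((Ideal.isPrimary_iff.mp hQ).2 hw).resolve_right hz
  have hnilp : ∀ z : A, z ∈ Q.radical → IsNilpotent (ψ z) := by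
    rintro z ⟨n, hn⟩
    exact ⟨n, by rw [← map_pow, hker]; exact hn⟩
  obtain ⟨xinv, hx⟩ := (hunit _ ha0).exists_right_inv
  obtain ⟨cinv, hcinv⟩ := (hunit _ hc).exists_right_inv
  set y := ψ c * xinv with hy
  set yinv := cinv * ψ (a.coeff 0) with hyinvdef
  have hyinv : y * yinv = 1 := by
    calc y * yinv = (ψ c * cinv) * (ψ (a.coeff 0) * xinv) := by rw [hy, hyinvdef]; ring
      _ = 1 := by rw [hcinv, hx, one_mul]
  obtain ⟨n, hn⟩ := key_integral (L := L) p c a f xinv y yinv hy hyinv hx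
    (fun j hj => hnilp _ (ha j hj)) hdiv hpow
  -- nilpotent ideal
  set b := (a - C (a.coeff 0)).map ψ with hb
  set I := cI b with hI
  have hIfg : I.FG := by
    have : Set.range b.coeff ⊆ insert 0 (b.coeff '' ((Finset.range (b.natDegree + 1) : Finset ℕ) :
        Set ℕ)) := by
      rintro z ⟨i, rfl⟩
      by_cases hi : i < b.natDegree + 1
      · exact Set.mem_insert_of_mem _ ⟨i, by simpa using hi, rfl⟩
      · rw [coeff_eq_zero_of_natDegree_lt (by omega)]
        exact Set.mem_insert _ _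
    exact Submodule.fg_span (Set.Finite.subset (((Finset.finite_toSet _).image _).insert 0) this)
  have hIrad : I ≤ (⊥ : Ideal L).radical := by
    rw [hI, cI, Ideal.span_le]
    rintro z ⟨i, rfl⟩
    have h1 : IsNilpotent (b.coeff i) := by
      rw [hb, coeff_map, coeff_sub]
      rcases Nat.eq_zero_or_pos i with h0 | h0
      · subst h0
        rw [coeff_C_zero, sub_self, map_zero]
        exact IsNilpotent.zero
      · rw [coeff_C, if_neg (by omega), sub_zero]
        exact hnilp _ (ha i h0)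
    obtain ⟨n, hn⟩ := h1
    exact ⟨n, by rw [hn]; exact Ideal.zero_mem _⟩
  obtain ⟨n1, hn1⟩ := Ideal.exists_pow_le_of_le_radical_of_fg hIrad hIfg
  rw [le_bot_iff] at hn1
  -- the conclusion
  intro g K
  set J := (a.natDegree + 1) * n1 + g.natDegree with hJ
  obtain ⟨M0, hM0⟩ := S1_pow_le f c (a.coeff 0) xinv y hy hx n hn (K + J)
  refine ⟨M0, fun m hm => ?_⟩
  set X1 : Submodule A L := Submodule.span A {ψ (a.coeff 0)} with hX1
  set Xi : Submodule A L := Submodule.span A {xinv} with hXi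
  have hXX : X1 * Xi = 1 := by
    rw [hX1, hXi, Submodule.span_mul_span, Set.singleton_mul_singleton, hx,
      Submodule.one_eq_span]
  have hw : WF y (Xi ^ g.natDegree * S1 f y ^ m) ((g * f ^ m).map ψ) := by
    rw [Polynomial.map_mul, Polynomial.map_pow]
    exact (WF_map c (a.coeff 0) xinv y hy hx g _ le_rfl).mul ((WF_f f y).pow m)
  obtain ⟨u, hu1, hu2⟩ := solveD c xinv y a hx hy I n1 hn1 (mem_map_cI b) n1 le_rfl _ _ hw
    (by rw [Nat.sub_self, pow_zero, Ideal.one_eq_top, Ideal.map_top]; exact Submodule.mem_top)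
  have hle : Xi ^ ((a.natDegree + 1) * n1) * (Xi ^ g.natDegree * S1 f y ^ m) ≤ X1 ^ K := by
    calc Xi ^ ((a.natDegree + 1) * n1) * (Xi ^ g.natDegree * S1 f y ^ m)
        = Xi ^ J * S1 f y ^ m := by rw [← mul_assoc, ← pow_add]
      _ ≤ Xi ^ J * X1 ^ (K + J) := mul_le_mul' le_rfl (hM0 m hm)
      _ = X1 ^ K * (X1 * Xi) ^ J := by rw [pow_add, mul_pow]; ring
      _ = X1 ^ K := by rw [hXX, one_pow, mul_one]
  have hu3 : ∀ i, ∃ z : A, u.coeff i = ψ (a.coeff 0 ^ K * z) := by
    intro i
    have h1 := (hu1.mono hle) i 0 (Nat.zero_le _)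
    rw [pow_zero, one_mul, hX1, Submodule.span_pow, Set.singleton_pow,
      Submodule.mem_span_singleton] at h1
    obtain ⟨z, hz⟩ := h1
    refine ⟨z, ?_⟩
    rw [← hz, Algebra.smul_def, map_mul, map_pow, mul_comm]
  choose z hz using hu3
  set u0 : A[X] := ∑ i ∈ Finset.range (u.natDegree + 1), C (a.coeff 0 ^ K * z i) * X ^ i with hu0
  have hmap : u0.map ψ = u := by
    rw [hu0, Polynomial.map_sum]
    conv_rhs => rw [u.as_sum_range_C_mul_X_pow]
    refine Finset.sum_congr rfl fun i _ => ?_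
    rw [Polynomial.map_mul, Polynomial.map_pow, map_X, map_C, hz i]
  refine ⟨u0, ?_, ?_⟩
  · rw [hu0]
    refine Ideal.sum_mem _ fun i _ => Ideal.mul_mem_right _ _ (Ideal.mem_map_of_mem _ ?_)
    exact Ideal.mul_mem_right _ _ (Ideal.pow_mem_pow (coeff_mem_cI a 0) K)
  · rw [Ideal.mem_map_C_iff]
    intro i
    rw [← hker, ← coeff_map, Polynomial.map_sub, Dop_map, hmap, hu2, sub_self, coeff_zero]

omit [IsNoetherianRing A] in
/-- The field case applied at a prime ideal. -/
theorem mem_prime_of_pow (p : ℕ) [Fact p.Prime] (c : A) (a f : A[X]) (P : Ideal A) [P.IsPrime]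
    (hc : c ∉ P) (j : ℕ) (hj : 1 ≤ j) (haj : a.coeff j ∉ P) (hdeg : a.natDegree + 1 < p)
    (hdiv : ∀ n, 1 ≤ n → n ≤ f.natDegree → n ∣ p - 1)
    (hpow : ∀ m, 1 ≤ m → m ≤ p → ∃ h, Dop c a h = f ^ m) : f ∈ Ideal.map C P := by
  let F := FractionRing (A ⧸ P)
  let K := AlgebraicClosure F
  let φ : A →+* K := (algebraMap F K).comp ((algebraMap (A ⧸ P) F).comp (Ideal.Quotient.mk P))
  have hφ : ∀ z, φ z = 0 ↔ z ∈ P := by
    intro z
    rw [← Ideal.Quotient.eq_zero_iff_mem]
    constructor
    · intro h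
      have h1 : algebraMap (A ⧸ P) F (Ideal.Quotient.mk P z) = 0 :=
        (algebraMap F K).injective (by rw [map_zero]; exact h)
      exact (IsFractionRing.injective (A ⧸ P) F) (by rw [map_zero]; exact h1)
    · intro h
      change algebraMap F K (algebraMap (A ⧸ P) F (Ideal.Quotient.mk P z)) = 0
      rw [h, map_zero, map_zero]
  have : CharZero K := by
    let : Algebra ℚ K := (φ.comp (algebraMap ℚ A)).toAlgebra
    exact algebraRat.charZero K
  by_contra hf
  have hf' : f.map φ ≠ 0 := by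
    intro h
    apply hf
    rw [Ideal.mem_map_C_iff]
    intro i
    rw [← hφ, ← coeff_map, h, coeff_zero]
  have hc' : φ c ≠ 0 := fun h => hc ((hφ c).mp h)
  have haj' : φ (a.coeff j) ≠ 0 := fun h => haj ((hφ _).mp h)
  refine field_main p (C (φ c)⁻¹ * a.map φ) (f.map φ) ?_ ?_ hf' ?_ ?_
  · rw [natDegree_C_mul (inv_ne_zero hc')]
    have := natDegree_map_le (f := φ) (p := a)
    omega
  · rw [natDegree_C_mul (inv_ne_zero hc')]
    refine hj.trans (le_natDegree_of_ne_zero ?_)
    rw [coeff_map]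
    exact haj'
  · intro n hn1 hn2
    exact hdiv n hn1 (hn2.trans natDegree_map_le)
  · intro m hm1 hm2
    obtain ⟨h, hh⟩ := hpow m hm1 hm2
    refine ⟨C (φ c) * h.map φ, ?_⟩
    have h1 := congrArg (Polynomial.map φ) hh
    rw [Dop_map, Polynomial.map_pow, Dop] at h1
    have e : (C (φ c)⁻¹ * C (φ c) : K[X]) = 1 := by
      rw [← C_mul, inv_mul_cancel₀ hc', C_1]
    rw [← h1, derivative_C_mul]
    linear_combination (-(a.map φ) * h.map φ) * e

/-- All primary ideals are good. -/
theorem good_primary (p : ℕ) [Fact p.Prime] (c : A) (a f : A[X]) (Q : Ideal A)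
    (hQ : Q.IsPrimary) (hdeg : a.natDegree + 1 < p)
    (hdiv : ∀ n, 1 ≤ n → n ≤ f.natDegree → n ∣ p - 1)
    (hpow : ∀ m, 1 ≤ m → m ≤ p → ∃ h, Dop c a h = f ^ m) : Good c a f Q := by
  have hprime : Q.radical.IsPrime := Ideal.isPrime_radical hQ
  have hf1 : ∃ h, Dop c a h = f := by
    obtain ⟨h, hh⟩ := hpow 1 le_rfl (Fact.out : p.Prime).one_lt.le
    exact ⟨h, by rw [hh, pow_one]⟩
  by_cases hc : c ∈ Q.radical
  · obtain ⟨n, hn⟩ := hc
    exact good_of_strong (strong_of_cpow n hn hf1)
  by_cases hj : ∃ j, 1 ≤ j ∧ a.coeff j ∉ Q.radical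
  · obtain ⟨j, hj1, hj2⟩ := hj
    have h1 := mem_prime_of_pow p c a f Q.radical hc j hj1 hj2 hdeg hdiv hpow
    obtain ⟨n, hn⟩ := Ideal.exists_radical_pow_le_of_fg Q (IsNoetherian.noetherian _)
    refine good_of_strong (strong_of_pow_mem n ?_)
    refine map_C_mono hn ?_
    rw [Ideal.map_pow]
    exact Ideal.pow_mem_pow h1 n
  push Not at hj
  by_cases ha0 : a.coeff 0 ∈ Q.radical
  · have h1 : cI a ≤ Q.radical := by
      rw [cI, Ideal.span_le]
      rintro z ⟨i, rfl⟩
      rcases Nat.eq_zero_or_pos i with h0 | h0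
      · rw [h0]; exact ha0
      · exact hj i h0
    obtain ⟨n, hn⟩ := Ideal.exists_pow_le_of_le_radical_of_fg h1 (IsNoetherian.noetherian _)
    exact good_of_pow_le n hn
  · exact good_of_strong (strong_type_three p c a f Q hQ hc ha0 hj hdiv hpow)

/-- The Noetherian case. -/
theorem noetherian_case (p : ℕ) [Fact p.Prime] (c : A) (a f g : A[X])
    (hdeg : a.natDegree + 1 < p)
    (hdiv : ∀ n, 1 ≤ n → n ≤ f.natDegree → n ∣ p - 1)
    (hpow : ∀ m, 1 ≤ m → m ≤ p → ∃ h, Dop c a h = f ^ m) :
    ∃ N, ∀ m, N ≤ m → ∃ u, Dop c a u = g * f ^ m := by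
  refine final_step ?_ (good_bot fun Q hQ => good_primary p c a f Q hQ hdeg hdiv hpow) g
  obtain ⟨h, hh⟩ := hpow 1 le_rfl (Fact.out : p.Prime).one_lt.le
  exact ⟨h, by rw [hh, pow_one]⟩

end Primary

end Pool.Agent.H.MP_405479_al
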